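import Pool.Agent.Lib.MP_c86c76_al.N.St

/-!
A change of sign on the boundary can be removed.
-/

set_option autoImplicit false

namespace Pool.Agent.MN

open Pool.Agent.MB
open FreeGroup hiding map_mul map_inv map_one

theorem back_rot (hN : NxSt) {α : Type} {Q Q' : List (Sd α)} (h : Q ~r Q') {t : Sd α} :
    ∀ (k : ℕ) (u : Sd α), Ch Q k u t → Ch Q' k u t
  | 0, u, ⟨h1, h2⟩ => ⟨(hN _).1 Q Q' u t h h1, h2⟩
  | k + 1, u, ⟨y, h1, h2, h3⟩ => ⟨y, (hN _).1 Q Q' u y h h1, h2, back_rot hN h k _ h3⟩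

theorem back_ne {α : Type} {c w : Sd α} (hc : isC c = true) (hw : isC w = false) : w ≠ c := by
  rintro rfl
  rw [hc] at hw
  cases hw

theorem back_main (hN : NxSt) (hM : MovSt) (hC : CutSt) (hH : ChSt) {α : Type} (T : Tg α)
    (A : FreeGroup α →* T.P) {c t : Sd α} (hc : isC c = true) (ht : t.2 ≠ c.2) :
    ∀ (k : ℕ) (E : Env α) (Q : List (Sd α)), Ok T A E Q → Ch Q k c t →
      ∃ E' Q', Ok T A E' Q' ∧ kc Q' < kc Q
  | 0, E, Q, hQ, ⟨h1, h2⟩ => by
    obtain ⟨⟨a, -, -, hp, -⟩, -⟩ := id hQ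
    have e := (hN _).2.2.2.2.2.2.1 _ (ss T E) (se T E) Q c t ⟨a, hp⟩ h1
    obtain ⟨R, hR⟩ := h1
    have hP : Pair c t := by
      obtain ⟨j, l, b, rfl⟩ := isC_true hc
      obtain ⟨j', l', b', rfl⟩ := isC_true h2
      right
      cases b <;> cases b'
      · exact absurd rfl ht
      · obtain rfl : l = l' := e
        exact ⟨j, j', l, false, rfl, rfl⟩
      · obtain rfl : l = l' := T.inj e
        exact ⟨j, j', l, true, rfl, rfl⟩
      · exact absurd rfl ht
    refine ⟨E, R, (hM α T A).2.2.2.2.2.1 E c t R hP ((hM α T A).2.1 E Q _ hR hQ), ?_⟩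
    rw [kc, kc, hR.perm.countP_eq, List.countP_cons_of_pos hc, List.countP_cons_of_pos h2]
    omega
  | k + 1, E, Q, hQ, ⟨y, ⟨R, hR⟩, hy, hk⟩ => by
    have hQ1 := (hM α T A).2.1 E Q _ hR hQ
    have hk1 := back_rot hN hR k _ hk
    obtain ⟨⟨a, hn, hcl, -, -⟩, -⟩ := id hQ1
    have hb : bar y ∈ R := by
      have := hcl y (by simp) hy
      simp only [List.mem_cons] at this
      rcases this with h | h | h
      · exact absurd h (back_ne hc hy)
      · exact absurd h (bar_ne y)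
      · exact h
    obtain ⟨B, C, rfl⟩ := List.append_of_mem hb
    obtain ⟨E', hE', -⟩ := hC α T A E y [c] [] B C hy (by simpa using hQ1)
    have hQ2 : Ok T A E' (y :: B ++ bar y :: c :: C) := by simpa using hE'
    obtain ⟨n1, n2⟩ := (hN _).2.2.2.2.2.2.2.2 B C c y (bar y) hn
    have htc : t ≠ c := fun h => ht (h ▸ rfl)
    have key : ∀ (m : ℕ) (u : Sd α), m < k → u ≠ c → Ch (c :: y :: B ++ bar y :: C) m u t →
        Ch (y :: B ++ bar y :: c :: C) m u t := by
      intro m
      induction m with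
      | zero =>
        intro u hm hu h
        refine ⟨n2 u t hu ?_ htc h.1, h.2⟩
        rintro rfl
        exact hm.ne ((hH α _ hn hcl).1 _ _ _ _ _ h hk1).1
      | succ m ih =>
        intro u hm hu h
        have hz : u ≠ bar y := by
          rintro rfl
          exact hm.ne ((hH α _ hn hcl).1 _ _ _ _ _ h hk1).1
        obtain ⟨w, h1, h2, h3⟩ := h
        exact ⟨w, n2 u w hu hz (back_ne hc h2) h1, h2,
          ih _ (by omega) (back_ne hc (w := bar w) h2) h3⟩
    have hk2 : Ch (y :: B ++ bar y :: c :: C) k c t := by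
      cases k with
      | zero => exact ⟨n1 t htc hk1.1, hk1.2⟩
      | succ m =>
        obtain ⟨w, h1, h2, h3⟩ := hk1
        exact ⟨w, n1 w (back_ne hc h2) h1, h2,
          key m _ (by omega) (back_ne hc (w := bar w) h2) h3⟩
    obtain ⟨E'', Q'', h1, h2⟩ := back_main hN hM hC hH T A hc ht k E' _ hQ2 hk2
    refine ⟨E'', Q'', h1, h2.trans_eq ?_⟩
    rw [kc, kc, hR.perm.countP_eq]
    simp only [List.cons_append, List.countP_cons, List.countP_append]
    omega

theorem backSt (hN : NxSt) (hM : MovSt) (hC : CutSt) (hH : ChSt) : BackSt := by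
  intro α T A E Q hQ hb
  simp only [NoBack, not_forall] at hb
  obtain ⟨c, -, hc, k, t, hk, ht⟩ := hb
  exact back_main hN hM hC hH T A hc ht k E Q hQ hk

end Pool.Agent.MN
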