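import Pool.Agent.Lib.MP_c86c76_al.N.St

/-!
Cut and paste of a polygon along a variable side.
-/

set_option autoImplicit false

namespace Pool.Agent.MN

open Pool.Agent.MB
open FreeGroup hiding map_mul map_inv map_one

variable {α : Type}

theorem cut_env (T : Tg α) (E : Env α) {y : Sd α} (hy : isC y = false) (w : FreeGroup α)
    (a b : α × Bool) : ∃ E' : Env α, E'.val y = w ∧ ss T E' y = a ∧ se T E' y = b ∧
      ∀ s, s.1 ≠ y.1 → E'.val s = E.val s ∧ ss T E' s = ss T E s ∧ se T E' s = se T E s := by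
  obtain ⟨i, c, rfl⟩ := isC_false hy
  refine ⟨⟨Function.update E.th i (cond c w w⁻¹), Function.update E.st i (cond c a b),
    Function.update E.en i (cond c b a)⟩, ?_, ?_, ?_, ?_⟩
  · cases c <;> simp [Env.val, Env.nv]
  · cases c <;> simp [ss]
  · cases c <;> simp [se, ss, bar]
  · rintro ⟨j | k, d⟩ h
    · have h' : j ≠ i := fun e => h (congrArg Sum.inl e)
      cases d <;> simp [Env.val, Env.nv, se, ss, bar, Function.update_of_ne h']
    · exact ⟨rfl, rfl, rfl⟩

theorem cut_mu {y : Sd α} (hy : isC y = false) (g : DD α) : ∃ μ : DD α →* DD α, μ (kv y) = g ∧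
    (∀ s : Sd α, s.1 ≠ y.1 → μ (kv s) = kv s) ∧ ∀ x, μ (of (Sum.inr x)) = of (Sum.inr x) := by
  obtain ⟨i, c, rfl⟩ := isC_false hy
  refine ⟨FreeGroup.lift (Sum.elim (fun j => if j = i then cond c g g⁻¹ else of (Sum.inl j))
    fun x => of (Sum.inr x)), ?_, ?_, fun x => lift_apply_of⟩
  · cases c
    · change FreeGroup.lift _ (of (Sum.inl i))⁻¹ = g
      simp
    · change FreeGroup.lift _ (of (Sum.inl i)) = g
      simp
  · rintro ⟨j | k, d⟩ h
    · have h' : j ≠ i := fun e => h (congrArg Sum.inl e)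
      cases d
      · change FreeGroup.lift _ (of (Sum.inl j))⁻¹ = (of (Sum.inl j))⁻¹
        simp [h']
      · change FreeGroup.lift _ (of (Sum.inl j)) = of (Sum.inl j)
        simp [h']
    · exact map_one _

theorem cut_kl {μ : DD α →* DD α} {L : List (Sd α)} (h : ∀ s ∈ L, μ (kv s) = kv s) :
    μ (kl L) = kl L := by
  rw [kl, map_list_prod, List.map_map]
  exact congrArg List.prod (List.map_congr_left h)

theorem cut_perm {σ : Type} (y z : σ) (U V B C : List σ) :
    (y :: B ++ V ++ z :: U ++ C).Perm (U ++ y :: V ++ B ++ z :: C) ∧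
    (U ++ y :: V ++ B ++ z :: C).Perm (y :: z :: (U ++ V ++ B ++ C)) := by
  classical
  constructor
  all_goals
    rw [List.perm_iff_count]
    intro s
    simp only [List.count_append, List.count_cons]
    omega

theorem cutSt : CutSt := by
  intro α T A E y U V B C hy ⟨⟨a, nd, cl, pt, iv⟩, v1⟩
  obtain ⟨pm, pm2⟩ := cut_perm y (bar y) U V B C
  have ne : ∀ s ∈ U ++ V ++ B ++ C, s.1 ≠ y.1 := fun s hs e => by
    have n := pm2.nodup_iff.1 nd
    rcases eq_or_bar e with rfl | rfl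
    · exact (List.nodup_cons.1 n).1 (List.mem_cons_of_mem _ hs)
    · exact (List.nodup_cons.1 (List.nodup_cons.1 n).2).1 hs
  have nU : ∀ s ∈ U, s.1 ≠ y.1 := fun s hs => ne s (by simp [hs])
  have nV : ∀ s ∈ V, s.1 ≠ y.1 := fun s hs => ne s (by simp [hs])
  have nB : ∀ s ∈ B, s.1 ≠ y.1 := fun s hs => ne s (by simp [hs])
  have nC : ∀ s ∈ C, s.1 ≠ y.1 := fun s hs => ne s (by simp [hs])
  obtain ⟨m1, p1, e1, pC⟩ := Pa_append.1 pt
  obtain ⟨m, p2, pB⟩ := Pa_append.1 p1
  obtain ⟨m2, pU, e2, pV⟩ := Pa_append.1 p2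
  rw [ss_bar] at e1
  rw [se_bar] at pC
  subst e1 e2
  obtain ⟨E', w1, w2, w3, w4⟩ := cut_env T E hy (E.vl (U ++ y :: V)) a m
  obtain ⟨μ, u1, u2, u3⟩ := cut_mu hy ((kl U)⁻¹ * kv y * (kl V)⁻¹)
  have qU := Pa_congr (fun s hs => (w4 s (nU s hs)).2) pU
  have qV := Pa_congr (fun s hs => (w4 s (nV s hs)).2) pV
  have qB := Pa_congr (fun s hs => (w4 s (nB s hs)).2) pB
  have qC := Pa_congr (fun s hs => (w4 s (nC s hs)).2) pC
  have vU := vl_congr fun s hs => (w4 s (nU s hs)).1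
  have vV := vl_congr fun s hs => (w4 s (nV s hs)).1
  have vB := vl_congr fun s hs => (w4 s (nB s hs)).1
  have vC := vl_congr fun s hs => (w4 s (nC s hs)).1
  have key : T.pj (tt T E' (μ (kv y))) = T.pj (tt T E (kv y)) := by
    rw [u1, map_mul, map_mul, map_inv, map_inv, map_mul, map_mul, map_inv, map_inv, pj_kl qU,
      pj_kl qV, pj_kv, pj_kv, ← map_inv, ← map_inv, ← map_mul, ← map_mul, lp, lp, w1, w2, w3, vU,
      vV, vl_append, vl_cons]
    congr 1
    group
  refine ⟨E', ⟨⟨a, pm.nodup_iff.2 nd, fun s hs h => pm.mem_iff.2 (cl s (pm.mem_iff.1 hs) h), ?_,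
    iv.sim μ ?_ ?_⟩, ?_⟩, w1, fun a' b' h => ?_, w4⟩
  · refine Pa_append.2 ⟨_, Pa_append.2 ⟨m, Pa_append.2 ⟨_, ⟨w2, w3 ▸ qB⟩, qV⟩, w3, ?_⟩, qC⟩
    rw [se_bar, w2]
    exact qU
  · simp only [kl_append, kl_cons, kv_bar, map_mul, map_inv, u1,
      cut_kl fun s hs => u2 s (nU s hs), cut_kl fun s hs => u2 s (nV s hs),
      cut_kl fun s hs => u2 s (nB s hs), cut_kl fun s hs => u2 s (nC s hs)]
    exact isConj_iff.2 ⟨1, by group⟩
  · rintro (j | x)
    · change T.pj (tt T E' (μ (kv (Sum.inl j, true)))) = T.pj (tt T E (kv (Sum.inl j, true)))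
      by_cases h : ((Sum.inl j, true) : Sd α).1 = y.1
      · rcases eq_or_bar h with e | e
        · rw [e, key]
        · rw [e, kv_bar, map_inv, map_inv, map_inv, map_inv, map_inv, key]
      · rw [u2 _ h, pj_kv, pj_kv, lp, lp, (w4 _ h).1, (w4 _ h).2.1, (w4 _ h).2.2]
    · rw [u3]
      exact congrArg T.pj ((tt_inr T E' (of x)).trans (tt_inr T E (of x)).symm)
  · simp only [vl_append, vl_cons, val_bar] at v1 w1 ⊢
    rw [w1, vU, vV, vB, vC, ← v1]
    group
  · have e : a' = a := by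
      cases U with
      | nil => exact h.1.symm.trans p2.1
      | cons u U => exact h.1.symm.trans p2.1
    subst e
    exact ⟨w2, w3.trans (Pa_unique p2 h)⟩

end Pool.Agent.MN
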