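import Pool.Agent.Lib.MP_c86c76_al.N.St

/-!
One of two closed parts of a polygon can be dropped.
-/

set_option autoImplicit false

namespace Pool.Agent.MN

open Pool.Agent.MB
open FreeGroup hiding map_mul map_inv map_one

variable {α : Type}

/-- The letter of a variable side. -/
def dropV : Sd α → Option ((ℕ ⊕ α) × Bool)
  | (Sum.inl i, b) => some (Sum.inl i, b)
  | (Sum.inr _, _) => none

theorem drop_some {s : Sd α} {l : (ℕ ⊕ α) × Bool} (h : dropV s = some l) :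
    ∃ i b, s = (Sum.inl i, b) ∧ l = (Sum.inl i, b) := by
  obtain ⟨i | k, b⟩ := s
  · exact ⟨i, b, rfl, (Option.some.inj h).symm⟩
  · cases h

theorem drop_kl (L : List (Sd α)) : kl L = mk (L.filterMap dropV) := by
  induction L with
  | nil => rfl
  | cons s L ih =>
    obtain ⟨i | k, b⟩ := s
    · rw [kl_cons, ih]; rfl
    · rw [kl_cons, ih]; exact one_mul _

theorem drop_zero (hZ : ZeroSt) {L : List (Sd α)} (h : L.Nodup) (h' : Clo L) :
    Null (kl L) ∧ ((∀ a b, om a b (kl L) = 0) → kl L = 1) := by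
  rw [drop_kl]
  refine hZ _ _ (h.filterMap fun s s' l e e' => ?_) fun l hl => ?_
  · obtain ⟨i, b, rfl, rfl⟩ := drop_some e
    obtain ⟨j, c, rfl, e⟩ := drop_some e'
    cases e
    rfl
  · obtain ⟨s, hs, e⟩ := List.mem_filterMap.1 hl
    obtain ⟨i, b, rfl, rfl⟩ := drop_some e
    exact List.mem_filterMap.2 ⟨_, h' _ hs rfl, rfl⟩

theorem drop_Fr {L : List (Sd α)} {S : Set (ℕ ⊕ α)}
    (h : ∀ i b, (Sum.inl i, b) ∈ L → Sum.inl i ∉ S) : kl L ∈ Fr S := by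
  rw [drop_kl]
  refine Ess_mem_Fr fun l hl => ?_
  obtain ⟨s, hs, e⟩ := List.mem_filterMap.1 hl
  obtain ⟨i, b, rfl, rfl⟩ := drop_some e
  exact h i b hs

theorem dropSt (hZ : ZeroSt) (hR : RankSt) : DropSt := by
  rintro α T A E a U B hI ⟨⟨a0, nd, clo, pt, lam, i1, i2⟩, hv⟩ cU pU vU
  by_cases hU : U = []
  · subst hU
    exact Or.inr ⟨⟨a0, nd, clo, pt, lam, i1, i2⟩, hv⟩
  obtain ⟨m, p1, p2⟩ := Pa_append.1 pt
  obtain rfl : a = a0 := by
    obtain ⟨s, U, rfl⟩ := List.exists_cons_of_ne_nil hU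
    exact pU.1.symm.trans p1.1
  obtain rfl : a = m := Pa_unique pU p1
  obtain ⟨n1, n2, n3⟩ := List.nodup_append.1 nd
  have vB : E.vl B = 1 := by rwa [vl_append, vU, one_mul] at hv
  have cB : Clo B := fun s hs h => (List.mem_append.1 (clo s (List.mem_append_right _ hs) h)).elim
    (fun e => absurd (bar_bar s) (n3 _ (cU _ e h) _ hs)) id
  obtain ⟨z1, z2⟩ := drop_zero hZ n1 cU
  obtain ⟨z3, z4⟩ := drop_zero hZ n2 cB
  rw [kl_append] at i1
  have hS : kl U ∈ Fr {x | ∃ i b, x = Sum.inl i ∧ (Sum.inl i, b) ∈ B} := drop_Fr <| by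
    rintro i b h ⟨j, c, e, h'⟩
    cases e
    rcases eq_or_bar (s := ((Sum.inl i, c) : Sd α)) (u := (Sum.inl i, b)) rfl with e | e
    exacts [n3 _ h _ h' e.symm, n3 _ (cU _ h rfl) _ h' e.symm]
  rcases (hR α _ T lam).1 (tt T E) _ (kl U) (kl B) (hI.sur _ i2) hS
    (drop_Fr fun i b h e => e ⟨i, b, rfl, h⟩) z1 z3 i1
    (by rw [pj_kl pU, vU]; simp) (by rw [pj_kl p2, vB]; simp) with h | h
  · exact Or.inr ⟨⟨a, n2, cB, p2, lam, by rwa [z2 h, one_mul] at i1, i2⟩, vB⟩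
  · exact Or.inl ⟨⟨a, n1, cU, pU, lam, by rwa [z4 h, mul_one] at i1, i2⟩, vU⟩

end Pool.Agent.MN
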