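import Pool.Agent.Lib.MP_c86c76_al.N.St

/-!
Cancellation in a product of letters.
-/

set_option autoImplicit false

namespace Pool.Agent.MN

open Pool.Agent.MB
open FreeGroup hiding map_mul map_inv map_one

variable {α σ : Type}

theorem find_step [DecidableEq α] (y z : α × Bool) (q : FreeGroup α)
    (h : (toWord (lt y * q)).getLast? = some z) :
    (toWord q).getLast? = some z ∨ (q = 1 ∧ y = z) := by
  have e : toWord (lt y * q) = reduce (y :: toWord q) := by
    conv_lhs => rw [← mk_toWord (x := q), lt, mul_mk, toWord_mk]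
    rfl
  rw [e, reduce.cons, reduce_toWord] at h
  rcases hq : toWord q with _ | ⟨a, T⟩
  · rw [hq] at h
    exact Or.inr ⟨toWord_eq_nil_iff.1 hq, by simpa using h⟩
  · rw [hq] at h
    left
    dsimp only at h
    split_ifs at h
    · rw [List.getLast?_cons, h]
      rfl
    · rwa [List.getLast?_cons_cons] at h

theorem find_last [DecidableEq α] (f : σ → FreeGroup α) (z : α × Bool) (L : List σ)
    (h : ∀ s ∈ L, f s = 1 ∨ ∃ l, f s = lt l) (hz : (toWord (L.map f).prod).getLast? = some z) :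
    ∃ (U : List σ) (s : σ) (V : List σ), L = U ++ s :: V ∧ f s = lt z ∧ (V.map f).prod = 1 := by
  induction L with
  | nil => simp at hz
  | cons s L ih =>
    have key : (toWord (L.map f).prod).getLast? = some z → ∃ (U : List σ) (t : σ) (V : List σ),
        s :: L = U ++ t :: V ∧ f t = lt z ∧ (V.map f).prod = 1 := fun e => by
      obtain ⟨U, t, V, rfl, h1, h2⟩ := ih (fun t ht => h t (by simp [ht])) e
      exact ⟨s :: U, t, V, rfl, h1, h2⟩
    rw [List.map_cons, List.prod_cons] at hz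
    rcases h s (by simp) with e | ⟨y, e⟩
    · exact key (by rwa [e, one_mul] at hz)
    · rcases find_step y z _ (e ▸ hz) with e' | ⟨e', rfl⟩
      exacts [key e', ⟨[], s, L, rfl, e, e'⟩]

theorem find_one (f : σ → FreeGroup α) (L : List σ) (x : α × Bool)
    (h : ∀ s ∈ L, f s = 1 ∨ ∃ l, f s = lt l) (hx : lt x * (L.map f).prod = 1) :
    ∃ (U : List σ) (s : σ) (V : List σ), L = U ++ s :: V ∧
      (U.map f).prod = 1 ∧ lt x * f s = 1 ∧ (V.map f).prod = 1 := by
  classical
  have e : lt (bar x) = (lt x)⁻¹ := by simp [lt, bar, inv_mk, invRev]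
  have e' : (L.map f).prod = lt (bar x) := e ▸ eq_inv_of_mul_eq_one_right hx
  obtain ⟨U, s, V, rfl, h1, h2⟩ := find_last f (bar x) L h (by rw [e', lt, toWord_mk]; rfl)
  refine ⟨U, s, V, rfl, ?_, by rw [h1, e, mul_inv_cancel], h2⟩
  simpa [h1, h2] using e'

theorem find_two (f : σ → FreeGroup α) (M : σ → Prop) (n : ℕ) : ∀ L : List σ, L.length < n →
    (∀ s ∈ L, f s = 1 ∨ ∃ l, f s = lt l) → (L.map f).prod = 1 → (∃ s ∈ L, M s ∧ f s ≠ 1) →
    ∃ (A : List σ) (s : σ) (U : List σ) (s' : σ) (B : List σ), L = A ++ s :: U ++ s' :: B ∧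
      (U.map f).prod = 1 ∧ f s * f s' = 1 ∧ f s ≠ 1 ∧ (M s ∨ M s') ∧ ∀ u ∈ U, M u → f u = 1 := by
  induction n with
  | zero => exact fun _ h => absurd h (Nat.not_lt_zero _)
  | succ n ih =>
    rintro (_ | ⟨s, V⟩) hl h hp ⟨m, hm, m1, m2⟩
    · simp at hm
    rw [List.map_cons, List.prod_cons] at hp
    have hV : ∀ t ∈ V, f t = 1 ∨ ∃ l, f t = lt l := fun t ht => h t (by simp [ht])
    by_cases e : f s = 1
    · obtain ⟨A, a, U, a', B, rfl, r⟩ := ih V (by simpa using hl) hV (by rwa [e, one_mul] at hp)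
        ⟨m, (List.mem_cons.1 hm).resolve_left fun e' => m2 (e' ▸ e), m1, m2⟩
      exact ⟨s :: A, a, U, a', B, rfl, r⟩
    obtain ⟨x, hx⟩ := (h s (by simp)).resolve_left e
    obtain ⟨U, s', B, rfl, h1, h2, h3⟩ := find_one f V x hV (hx ▸ hp)
    simp only [List.length_cons, List.length_append] at hl
    by_cases hU : ∃ u ∈ U, M u ∧ f u ≠ 1
    · obtain ⟨A, a, U', a', B', rfl, r⟩ := ih U (by omega) (fun t ht => hV t (by simp [ht])) h1 hU
      exact ⟨s :: A, a, U', a', B' ++ s' :: B, by simp, r⟩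
    by_cases hB : ∃ u ∈ B, M u ∧ f u ≠ 1
    · obtain ⟨A, a, U', a', B', rfl, r⟩ := ih B (by omega) (fun t ht => hV t (by simp [ht])) h3 hB
      exact ⟨s :: U ++ s' :: A, a, U', a', B', by simp, r⟩
    refine ⟨[], s, U, s', B, rfl, h1, hx ▸ h2, e, ?_, fun u hu hM => ?_⟩
    · simp only [List.mem_cons, List.mem_append] at hm
      rcases hm with rfl | hm | rfl | hm
      exacts [Or.inl m1, absurd ⟨m, hm, m1, m2⟩ hU, Or.inr m1, absurd ⟨m, hm, m1, m2⟩ hB]
    · by_contra hn
      exact hU ⟨u, hu, hM, hn⟩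

theorem findSt : FindSt := fun _ _ f =>
  ⟨find_one f, fun M L => find_two f M _ L (Nat.lt_succ_self _)⟩

end Pool.Agent.MN
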