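import Pool.Agent.Lib.MP_c86c76_al.N.St

/-!
The first polygon and the target of a full word.
-/

set_option autoImplicit false

namespace Pool.Agent.MN

open Pool.Agent.MB
open FreeGroup hiding map_mul map_inv map_one

theorem init_const {σ S : Type} {ss se : σ → S} {a : S} {L : List σ}
    (h : ∀ s ∈ L, ss s = a ∧ se s = a) : Pa ss se a L a := by
  induction L with
  | nil => rfl
  | cons s L ih =>
    obtain ⟨h1, h2⟩ := h s List.mem_cons_self
    exact ⟨h1, h2 ▸ ih fun u hu => h2 ▸ h u (List.mem_cons_of_mem _ hu)⟩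

theorem init_map {σ τ S : Type} {ss se : σ → S} (f : τ → σ) {a b : S} {L : List τ}
    (h : Pa (fun t => ss (f t)) (fun t => se (f t)) a L b) : Pa ss se a (L.map f) b := by
  induction L generalizing a with
  | nil => exact h
  | cons s L ih => exact ⟨h.1, ih h.2⟩

theorem init_rev {σ S : Type} {ss se : σ → S} {a b : S} {L : List σ} (h : Pa ss se a L b) :
    Pa se ss b L.reverse a := by
  induction L generalizing a with
  | nil => exact h.symm
  | cons s L ih =>
    rw [List.reverse_cons]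
    exact Pa_append.2 ⟨_, ih h.2, rfl, h.1⟩

variable {α : Type}

theorem init_prod (W : List (α × Bool)) : (W.map lt).prod = mk W := by
  induction W with
  | nil => rfl
  | cons l W ih => rw [List.map_cons, List.prod_cons, ih, Ess_cons]

theorem init_klC {H : List (Sd α)} (h : ∀ s ∈ H, isC s = true) : kl H = 1 :=
  List.prod_eq_one fun _ hx => by
    obtain ⟨s, hs, rfl⟩ := List.mem_map.1 hx
    exact kv_C (h s hs)

/-- A lollipop can be attached. -/
theorem init_step (hM : MovSt) (T : Tg α) (A : FreeGroup α →* T.P) (u w : FreeGroup α)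
    (H : ℕ → List (Sd α)) (h1 : ∀ j, (H j).Nodup)
    (h2 : ∀ j, ∀ s ∈ H j, ∃ l b, s = (Sum.inr (j, l), b))
    (h3 : ∀ j E, Pt T E T.h0 (H j) T.h0) (h4 : ∀ j (E : Env α), E.vl (H j) = w)
    (E : Env α) (Q : List (Sd α)) (h : Ok0 T A E T.h0 Q) :
    ∃ E' Q', Ok0 T A E' T.h0 Q' ∧ E'.vl Q' = E.vl Q * (u * w * u⁻¹) := by
  classical
  obtain ⟨-, -, m3, m4, -⟩ := hM α T A
  obtain ⟨j, hj⟩ := Infinite.exists_notMem_finset
    (Q.map fun s => Sum.elim id Prod.fst s.1).toFinset
  have hj' : ∀ s ∈ Q, Sum.elim id Prod.fst s.1 ≠ j := fun s hs e =>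
    hj (List.mem_toFinset.2 (List.mem_map.2 ⟨s, hs, e⟩))
  let E1 : Env α := ⟨Function.update E.th j u, Function.update E.st j T.h0,
    Function.update E.en j T.h0⟩
  obtain ⟨o1, o2⟩ := m4 E E1 _ Q h fun i hi =>
    have e : i ≠ j := hj' _ hi
    ⟨Function.update_of_ne e _ _, Function.update_of_ne e _ _, Function.update_of_ne e _ _⟩
  let z : Sd α := (Sum.inl j, true)
  have hC : ∀ s ∈ H j, isC s = true := fun s hs => by
    obtain ⟨l, b, rfl⟩ := h2 j s hs
    rfl
  have hz : z ∉ H j := fun hs => nomatch hC _ hs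
  have hz' : bar z ∉ H j := fun hs => nomatch hC _ hs
  have s1 : ss T E1 z = T.h0 := Function.update_self ..
  have s2 : se T E1 z = T.h0 := Function.update_self ..
  have v1 : E1.val z = u := Function.update_self ..
  refine ⟨E1, Q ++ (z :: H j ++ [bar z]), m3 E1 _ Q _ o1 ?_ ?_ ?_ ?_ ?_, ?_⟩
  · rw [List.cons_append, List.nodup_cons, List.mem_append, List.mem_singleton]
    exact ⟨fun h => h.elim hz (bar_ne z).symm,
      (List.perm_append_singleton _ _).nodup_iff.2 (List.nodup_cons.2 ⟨hz', h1 j⟩)⟩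
  · intro s hs hc
    simp only [List.cons_append, List.mem_cons, List.mem_append, List.not_mem_nil, or_false] at hs ⊢
    rcases hs with rfl | hs | rfl
    · exact Or.inr (Or.inr rfl)
    · rw [hC s hs] at hc; cases hc
    · exact Or.inl (bar_bar z)
  · intro s hs hQ
    simp only [List.cons_append, List.mem_cons, List.mem_append, List.not_mem_nil, or_false] at hs
    rcases hs with rfl | hs | rfl
    · exact hj' _ hQ rfl
    · obtain ⟨l, b, rfl⟩ := h2 j s hs
      exact hj' _ hQ rfl
    · exact hj' _ hQ rfl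
  · refine ⟨s1, Pa_append.2 ⟨T.h0, s2 ▸ h3 j E1, s2, ?_⟩⟩
    rw [se_bar, s1]; rfl
  · rw [kl_append, kl_cons, kl_cons, kl_nil, init_klC hC, kv_bar]
    group
  · rw [vl_append, vl_append, vl_cons, vl_cons, vl_nil, val_bar, v1, h4,
      vl_congr fun s hs => (o2 s hs).1, mul_one]

theorem initSt (hM : MovSt) : InitSt := by
  intro α _ T A hW hA
  obtain ⟨e, he⟩ := Countable.exists_injective_nat α
  choose u hu using fun x : α => QuotientGroup.mk'_surjective _ (A (of x))
  let E0 : Env α := ⟨Function.extend e u fun _ => 1, fun _ => T.h0, fun _ => T.h0⟩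
  let f : α × Bool → Sd α := fun l => (Sum.inl (e l.1), l.2)
  let lam : FreeGroup α →* DD α := FreeGroup.map fun x => Sum.inl (e x)
  have k1 : lam T.r = kl (T.W.map f) := by
    rw [Tg.r, ← init_prod, map_list_prod, kl, List.map_map, List.map_map]
    rfl
  have k2 : ∀ w, T.pj (tt T E0 (lam w)) = A w := by
    have : T.pj.comp ((tt T E0).comp lam) = A := FreeGroup.ext_hom _ _ fun x => by
      have e1 : tt T E0 (lam (of x)) = T.pre T.h0 * Function.extend e u (fun _ => 1) (e x) *
        (T.pre T.h0)⁻¹ := tt_kv T E0 (Sum.inl (e x), true)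
      rw [T.pre0, he.extend_apply, one_mul, inv_one, mul_one] at e1
      exact (congrArg T.pj e1).trans (hu x)
    exact DFunLike.congr_fun this
  have k3 : Pt T E0 T.h0 (T.W.map f) T.h0 := init_const fun s hs => by
    obtain ⟨⟨x, _ | _⟩, -, rfl⟩ := List.mem_map.1 hs <;> exact ⟨rfl, rfl⟩
  have o0 : Ok0 T A E0 T.h0 (T.W.map f) := ⟨T.nd.map fun l l' h =>
      Prod.ext (he (Sum.inl.inj (congrArg Prod.fst h))) (congrArg Prod.snd h :),
    fun s hs _ => by
      obtain ⟨l, -, rfl⟩ := List.mem_map.1 hs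
      exact List.mem_map.2 ⟨bar l, hW _, rfl⟩, k3, lam, k1 ▸ IsConj.refl _, k2⟩
  have k4 : (E0.vl (T.W.map f))⁻¹ ∈ Subgroup.normalClosure {T.r} := by
    have e1 := pj_kl k3
    rw [← k1, k2, hA, T.pre0, one_mul, inv_one, mul_one] at e1
    exact inv_mem ((pj_eq_one T _).1 e1.symm)
  have key : ∀ n ∈ Subgroup.normalClosure {T.r}, ∀ E Q, Ok0 T A E T.h0 Q →
      ∃ E' Q', Ok0 T A E' T.h0 Q' ∧ E'.vl Q' = E.vl Q * n := by
    intro n hn
    have cj : ∀ x ∈ Group.conjugatesOfSet {T.r}, ∃ c, c * T.r * c⁻¹ = x := fun x hx => by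
      obtain ⟨_, rfl, h⟩ := Group.mem_conjugatesOfSet_iff.1 hx
      exact isConj_iff.1 h
    induction hn using Subgroup.closure_induction'' with
    | mem x hx =>
      obtain ⟨c, rfl⟩ := cj x hx
      refine init_step hM T A c _ (fun j => T.W.map fun l => (Sum.inr (j, l), true))
        (fun j => T.nd.map fun l l' h => by simpa using h) (fun j s hs => ?_)
        (fun j E => init_map _ T.pa) fun j E => ?_
      · obtain ⟨l, -, rfl⟩ := List.mem_map.1 hs
        exact ⟨l, true, rfl⟩
      · rw [Env.vl, List.map_map]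
        exact init_prod T.W
    | inv_mem x hx =>
      obtain ⟨c, rfl⟩ := cj x hx
      rw [conj_inv]
      refine init_step hM T A c _ (fun j => T.W.reverse.map fun l => (Sum.inr (j, l), false))
        (fun j => (List.nodup_reverse.2 T.nd).map fun l l' h => by simpa using h)
        (fun j s hs => ?_) (fun j E => init_map _ (init_rev T.pa)) fun j E => ?_
      · obtain ⟨l, -, rfl⟩ := List.mem_map.1 hs
        exact ⟨l, false, rfl⟩
      · rw [Env.vl, List.map_map, Tg.r, ← init_prod, List.prod_inv_reverse, List.map_map,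
          List.map_reverse]
        rfl
    | one => exact fun E Q h => ⟨E, Q, h, (mul_one _).symm⟩
    | mul x y _ _ hx hy =>
      intro E Q h
      obtain ⟨E1, Q1, h1, e1⟩ := hx E Q h
      obtain ⟨E2, Q2, h2, e2⟩ := hy E1 Q1 h1
      exact ⟨E2, Q2, h2, by rw [e2, e1, mul_assoc]⟩
  obtain ⟨E, Q, h, e1⟩ := key _ k4 E0 _ o0
  exact ⟨E, Q, ⟨_, h⟩, e1.trans (mul_inv_cancel _)⟩

theorem tgSt : TgSt := by
  intro α _ W hW h0 hu
  classical
  haveI := Fintype.ofFinite α
  have n0 : 0 < W.length := List.length_pos_iff.2 h0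
  let g : ℕ → α × Bool := fun i => W[i % W.length]'(Nat.mod_lt _ n0)
  have g1 : ∀ i (h : i < W.length), g i = W[i] := fun i h => by
    simp only [g, Nat.mod_eq_of_lt h]
  have g2 : ∀ i, W.formPerm (g i) = g (i + 1) := fun i => by
    simp only [g, List.formPerm_apply_getElem W hW.1, Nat.mod_add_mod]
  have g3 : ∀ l, ∃ i, i < W.length ∧ g i = l := fun l => by
    obtain ⟨i, h, e⟩ := List.getElem_of_mem (hW.2 l)
    exact ⟨i, h, (g1 i h).trans e⟩
  have g4 : ∀ k i, (W.formPerm)^[k] (g i) = g (i + k) := fun k i => by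
    induction k with
    | zero => rfl
    | succ k ih => rw [Function.iterate_succ_apply', ih, g2, Nat.add_assoc]
  have g5 : ∀ i, g (i + W.length) = g i := fun i => by simp only [g, Nat.add_mod_right]
  have g6 : ∀ i, i < W.length → W.idxOf (g i) = i := fun i h => by
    rw [g1 i h]; exact hW.1.idxOf_getElem i h
  have g7 : ∀ i, i < W.length → mk (W.take i) * lt (g i) = mk (W.take (i + 1)) := fun i h => by
    rw [g1 i h, lt, mul_mk, List.take_concat_get' _ _ h]
  have g8 : g (W.length - 1 + 1) = g 0 := by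
    rw [Nat.sub_add_cancel n0, ← g5 0, Nat.zero_add]
  have g9 : ∀ k i, i + k = W.length → Pa id W.formPerm (g i) (W.drop i) (g 0) := fun k => by
    induction k with
    | zero =>
      rintro _ rfl
      rw [List.drop_length, Pa_nil, ← g5 0, Nat.zero_add]
    | succ k ih =>
      intro i e
      have h : i < W.length := by omega
      rw [List.drop_eq_getElem_cons h, ← g1 i h]
      exact ⟨rfl, g2 i ▸ ih (i + 1) (by omega)⟩
  refine ⟨⟨W, W.formPerm, fun l => mk (W.take (W.idxOf l)), g (W.length - 1), g 0, hW.1,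
    null_full hW, hu, W.formPerm.injective, fun l l' => ?_, fun l hl => ?_, ?_,
    g9 _ 0 (Nat.zero_add _), ?_⟩, rfl⟩
  · obtain ⟨i, h, rfl⟩ := g3 l
    obtain ⟨i', h', rfl⟩ := g3 l'
    exact ⟨i' + W.length - i, by rw [g4, ← g5 i']; congr 1; omega⟩
  · obtain ⟨i, h, rfl⟩ := g3 l
    have h' : i + 1 < W.length := by
      by_contra h'
      exact hl (by congr 1; omega)
    rw [g2, g6 i h, g6 _ h', g7 i h, mul_inv_cancel]
  · rw [g2, g8, g6 0 n0, g6 _ (by omega), g7 _ (by omega), Nat.sub_add_cancel n0,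
      List.take_length, List.take_zero, ← one_eq_mk, inv_one, mul_one]
  · rw [g6 0 n0, List.take_zero, ← one_eq_mk]

end Pool.Agent.MN
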