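import Pool.Agent.Lib.MP_c86c76_al.N.St

/-!
In a reduced polygon all constants have the same sign.
-/

set_option autoImplicit false

namespace Pool.Agent.MN

open Pool.Agent.MB
open FreeGroup hiding map_mul map_inv map_one

variable {α : Type}

theorem Mix_fst (b : Bool) (w : FreeGroup α) : FreeGroup.map Prod.fst (io b w) = w := by
  have : (FreeGroup.map Prod.fst).comp (io b) = MonoidHom.id (FreeGroup α) := by
    ext x; simp [io]
  exact DFunLike.congr_fun this w

open scoped Classical in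
/-- The indicator of the last constants of the sign `b`. -/
noncomputable def Mix_cn (T : Tg α) (b : Bool) (c : Sd α) : ℤ :=
  if ∃ j, c = (Sum.inr (j, T.la), b) then 1 else 0

theorem Mix_om (T : Tg α) (E : Env α) {c : Sd α} (hc : isC c = true) :
    Null (io c.2 (lp T E c)) ∧ ∀ a b, om a b (io c.2 (lp T E c)) =
      Mix_cn T true c * om a b (io true T.r) - Mix_cn T false c * om a b (io false T.r) := by
  obtain ⟨j, l, s, rfl⟩ := isC_true hc
  have hr : Null T.r := T.nul
  by_cases e : l = T.la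
  · rw [(lp_C T E j l s).2 e, e]
    cases s
    · refine ⟨hr.inv.map _, fun a b => ?_⟩
      rw [cond_false, map_inv, (hr.map _).om_inv]
      simp [Mix_cn]
    · exact ⟨hr.map _, fun a b => by simp [Mix_cn]⟩
  · rw [(lp_C T E j l s).1 e, map_one]
    exact ⟨null_one, fun a b => by simp [Mix_cn, e, om_one]⟩

theorem Mix_ne (T : Tg α) {Q : List (Sd α)} {b : Bool} {j : ℕ} (h : (Sum.inr (j, T.la), b) ∈ Q) :
    ((Q.filter isC).map (Mix_cn T b)).sum ≠ 0 := by
  have h1 := List.single_le_sum (l := (Q.filter isC).map (Mix_cn T b)) (fun x hx => by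
    obtain ⟨c, -, rfl⟩ := List.mem_map.1 hx
    rw [Mix_cn]
    split_ifs <;> simp) _ (List.mem_map_of_mem (List.mem_filter.2 ⟨h, rfl⟩))
  rw [Mix_cn, if_pos ⟨j, rfl⟩] at h1
  omega

theorem mixSt (hN : NxSt) (hM : MovSt) (hR : RankSt) (hH : ChSt) (hS : SgnSt) (hL : LastSt) :
    MixSt := by
  classical
  intro α T A E Q hI hO hT hP hB
  by_contra hne
  have hc : ∀ b : Bool, ∃ j, (Sum.inr (j, T.la), b) ∈ Q := fun b => by
    by_contra h
    refine hne ⟨!b, fun c hc hc' => ?_⟩
    by_contra e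
    have e' : c.2 = b := by simpa using e
    exact h (e' ▸ hL α T A E Q hO hB c hc hc')
  obtain ⟨j1, h1⟩ := hc true
  obtain ⟨j0, h0⟩ := hc false
  have h2 := (hM α T A).2.2.2.2.2.2 E Q _ hO h1
  obtain ⟨⟨a, nd, clo, pt, lam, i1, i2⟩, hv⟩ := hO
  obtain ⟨lab, l1, l2⟩ := (hH α Q nd clo).2.2.2.2 h2 hB
  obtain ⟨-, -, -, -, -, -, n7, n8, -⟩ := hN (Sd α)
  obtain ⟨a', pa⟩ := n8 ((α × Bool) × Bool)
    (fun s => (ss T E s, cond (isC s) s.2 (lab (bar s)))) (fun s => (se T E s, lab s)) Q h2
    fun u v h => Prod.ext (n7 _ _ _ Q u v ⟨a, pt⟩ h) (l2 u v h)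
  obtain ⟨f, hf⟩ : ∃ f : Sd α → FreeGroup (α × Bool), ∀ s, f s =
      io (cond (isC s) s.2 (lab (bar s))) (T.pre (ss T E s)) * io s.2 (E.val s) *
        (io (lab s) (T.pre (se T E s)))⁻¹ := ⟨_, fun _ => rfl⟩
  have h3 : (Q.map f).prod = 1 := by
    have := Pa_tele (fun x : (α × Bool) × Bool => io x.2 (T.pre x.1))
      (fun s => io s.2 (E.val s)) pa
    rw [hS α E Q hv hT hP, mul_one, mul_inv_cancel] at this
    rw [funext hf]
    exact this
  have h4 : ∀ c ∈ Q, isC c = true → f c = io c.2 (lp T E c) := fun c hc hc' => by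
    rw [hf, hc', l1 c hc hc', lp, map_mul, map_mul, map_inv, cond_true]
  obtain ⟨Θ, t1, t2⟩ : ∃ Θ : DD α →* FreeGroup (α × Bool), (∀ i, Θ (of (Sum.inl i)) =
      if (Sum.inl i, true) ∈ Q then f (Sum.inl i, true) else io true (lp T E (Sum.inl i, true))) ∧
      ∀ x, Θ (of (Sum.inr x)) = io true (of x) :=
    ⟨FreeGroup.lift (Sum.elim (fun i => if (Sum.inl i, true) ∈ Q then f (Sum.inl i, true) else
      io true (lp T E (Sum.inl i, true))) fun x => io true (of x)),
      fun _ => lift_apply_of, fun _ => lift_apply_of⟩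
  have h5 : ∀ s ∈ Q, Θ (kv s) = cond (isC s) 1 (f s) := by
    have h6 : ∀ i, (Sum.inl i, true) ∈ Q → Θ (kv (Sum.inl i, true)) = f (Sum.inl i, true) :=
      fun i hi => (t1 i).trans (if_pos hi)
    rintro ⟨i | k, b⟩ hs
    · cases b
      · have hs' : (Sum.inl i, true) ∈ Q := clo _ hs rfl
        change Θ (kv (bar (Sum.inl i, true))) = f (bar (Sum.inl i, true))
        rw [kv_bar, map_inv, h6 i hs', hf, hf, val_bar, hT _ hs' rfl, bar_bar, ss_bar, se_bar,
          inv_one, map_one, map_one, mul_one, mul_one, _root_.mul_inv_rev, inv_inv]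
        rfl
      · exact h6 i hs
    · exact map_one _
  have h6 : (FreeGroup.map Prod.fst).comp Θ = tt T E := FreeGroup.ext_hom _ _ fun x => by
    rcases x with i | x
    · rw [MonoidHom.comp_apply, t1, tt, lift_apply_of]
      split_ifs
      · rw [hf, map_mul, map_mul, map_inv, Mix_fst, Mix_fst, Mix_fst]; rfl
      · exact Mix_fst _ _
    · rw [MonoidHom.comp_apply, t2, tt, lift_apply_of]
      exact Mix_fst _ _
  have h7 : Θ (kl Q) = (Q.map fun s => cond (isC s) 1 (f s)).prod := by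
    rw [kl, map_list_prod, List.map_map]
    exact congrArg List.prod (List.map_congr_left h5)
  refine ((hR α _ T lam).2.1 Θ (kl Q) (-((Q.filter isC).map (Mix_cn T true)).sum)
    ((Q.filter isC).map (Mix_cn T false)).sum ?_ i1 fun x y => ?_).elim
    (fun e => Mix_ne T h1 (neg_eq_zero.1 e)) (Mix_ne T h0)
  · rw [← MonoidHom.comp_assoc, h6]
    exact hI.sur _ i2
  · have h8 := (om_sum isC f x y Q fun c hc hc' => h4 c hc hc' ▸ (Mix_om T E hc').1).2
    rw [h3, om_one, ← h7, List.map_congr_left (l := Q.filter isC) (g := fun c =>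
      Mix_cn T true c * om x y (io true T.r) + Mix_cn T false c * -om x y (io false T.r))
      fun c hc => by
        rw [h4 c (List.mem_filter.1 hc).1 (List.mem_filter.1 hc).2,
          (Mix_om T E (List.mem_filter.1 hc).2).2]
        ring, List.sum_map_add, List.sum_map_mul_right, List.sum_map_mul_right] at h8
    linear_combination -h8

end Pool.Agent.MN
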