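import Pool.Agent.Lib.MP_c86c76_al.N.St

/-! Rotation, insertion, change of unused variables, deletion and cancellation. -/

set_option autoImplicit false

namespace Pool.Agent.MN

open Pool.Agent.MB
open FreeGroup hiding map_mul map_inv map_one

variable {α : Type}

theorem Mov_rot {σ : Type} {Q Q' : List σ} (h : Q ~r Q') : ∃ X Y, Q = X ++ Y ∧ Q' = Y ++ X := by
  obtain ⟨n, hn, rfl⟩ := List.isRotated_iff_mod.1 h
  exact ⟨Q.take n, Q.drop n, (List.take_append_drop n Q).symm, List.rotate_eq_drop_append_take hn⟩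

theorem Mov_fix (μ : DD α →* DD α) {L : List (Sd α)} (h : ∀ s ∈ L, μ (kv s) = kv s) :
    μ (kl L) = kl L := by
  rw [kl, map_list_prod, List.map_map]
  exact congrArg List.prod (List.map_congr_left h)

theorem Mov_kv (μ : DD α →* DD α) (i : ℕ) (b : Bool) (g : DD α →* DD α)
    (h : μ (of (Sum.inl i)) = g (of (Sum.inl i))) :
    μ (kv (Sum.inl i, b)) = g (kv (Sum.inl i, b)) := by
  cases b
  · change μ (kv (bar (Sum.inl i, true))) = g (kv (bar (Sum.inl i, true)))
    rw [kv_bar, map_inv, map_inv]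
    exact congrArg Inv.inv h
  · exact h

theorem Mov_inv {T : Tg α} {A : FreeGroup α →* T.P} {E : Env α} {Q Q' : List (Sd α)}
    (h : Inv T A E Q) (h1 : IsConj (kl Q) (kl Q')) : Inv T A E Q' :=
  h.sim (MonoidHom.id _) h1 fun _ => rfl

theorem Mov_one (hN : NxSt) (T : Tg α) (A : FreeGroup α →* T.P) (E : Env α) (Q Q' : List (Sd α))
    (h : Q ~r Q') (h0 : ∃ a, Ok0 T A E a Q) : ∃ a, Ok0 T A E a Q' := by
  obtain ⟨a, h1, h2, h3, h4⟩ := h0
  obtain ⟨a', h5⟩ := (hN (Sd α)).2.2.2.2.2.1 _ _ _ Q Q' h ⟨a, h3⟩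
  refine ⟨a', h.nodup_iff.1 h1, fun s hs hc => h.mem_iff.1 (h2 s (h.mem_iff.2 hs) hc), h5,
    Mov_inv h4 ?_⟩
  obtain ⟨X, Y, rfl, rfl⟩ := Mov_rot h
  rw [kl_append, kl_append]
  exact isConj_iff.2 ⟨kl Y, by group⟩

theorem Mov_four (T : Tg α) (A : FreeGroup α →* T.P) (E E' : Env α) (a : α × Bool)
    (Q : List (Sd α)) (h : Ok0 T A E a Q)
    (he : ∀ i, (Sum.inl i, true) ∈ Q → E'.th i = E.th i ∧ E'.st i = E.st i ∧ E'.en i = E.en i) :
    Ok0 T A E' a Q ∧ ∀ s ∈ Q, E'.val s = E.val s ∧ ss T E' s = ss T E s ∧ se T E' s = se T E s := by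
  classical
  obtain ⟨h1, h2, h3, h4⟩ := h
  have hm : ∀ i b, (Sum.inl i, b) ∈ Q → (Sum.inl i, true) ∈ Q := fun i b hs => by
    cases b
    · exact h2 _ hs rfl
    · exact hs
  have key : ∀ s ∈ Q, E'.val s = E.val s ∧ ss T E' s = ss T E s ∧ se T E' s = se T E s := by
    rintro ⟨i | k, b⟩ hs
    · obtain ⟨e1, e2, e3⟩ := he i (hm i b hs)
      cases b <;> simp [Env.val, Env.nv, ss, se, bar, e1, e2, e3]
    · exact ⟨rfl, rfl, rfl⟩
  refine ⟨⟨h1, h2, Pa_congr (fun s hs => (key s hs).2) h3, ?_⟩, key⟩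
  let μ : DD α →* DD α := FreeGroup.lift (Sum.elim
    (fun i => if (Sum.inl i, true) ∈ Q then of (Sum.inl i)
      else FreeGroup.map Sum.inr (tt T E (of (Sum.inl i)))) fun x => of (Sum.inr x))
  refine h4.sim μ ?_ ?_
  · rw [Mov_fix μ]
    rintro ⟨i | k, b⟩ hs
    · refine Mov_kv μ i b (MonoidHom.id _) ?_
      simp only [μ, lift_apply_of, Sum.elim_inl, if_pos (hm i b hs), MonoidHom.id_apply]
    · exact map_one μ
  · rintro (i | x)
    · simp only [μ, lift_apply_of, Sum.elim_inl]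
      split_ifs with hi
      · obtain ⟨e1, e2, e3⟩ := key _ hi
        simp only [tt, lift_apply_of, Sum.elim_inl, lp, e1, e2, e3]
      · rw [tt_inr]
    · simp only [μ, tt, lift_apply_of, Sum.elim_inr]

theorem Mov_five (T : Tg α) (A : FreeGroup α →* T.P) (E : Env α) (y : Sd α)
    (B C D : List (Sd α)) (hy : isC y = false) (h : Ok T A E (B ++ y :: C ++ bar y :: D))
    (hv : E.val y = 1) (hs : ss T E y = se T E y) : Ok T A E (B ++ C ++ D) := by
  classical
  obtain ⟨⟨a, h1, h2, h3, h4⟩, h5⟩ := h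
  have hp : (B ++ y :: C ++ bar y :: D).Perm (y :: bar y :: (B ++ C ++ D)) := by
    refine List.perm_middle.trans (List.Perm.trans ?_ (List.Perm.swap _ _ _))
    exact (List.perm_middle.append_right D).cons _
  have hn := hp.nodup_iff.1 h1
  rw [List.nodup_cons, List.nodup_cons, List.mem_cons, not_or] at hn
  have hne : ∀ s ∈ B ++ C ++ D, s.1 ≠ y.1 := fun s hm e => by
    rcases eq_or_bar e with k | k
    · exact hn.1.2 (k ▸ hm)
    · exact hn.2.1 (k ▸ hm)
  obtain ⟨m2, p1, p2, p3⟩ := Pa_append.1 h3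
  obtain ⟨m1, p4, p5, p6⟩ := Pa_append.1 p1
  rw [se_bar] at p3
  rw [ss_bar] at p2
  refine ⟨⟨a, hn.2.2, fun s hs hc => ?_, ?_, ?_⟩, ?_⟩
  · have := hp.mem_iff.1 (h2 s (hp.mem_iff.2 (by simp only [List.mem_cons, hs, or_true])) hc)
    rcases List.mem_cons.1 this with e | this
    · exact absurd (congrArg Prod.fst e) (hne s hs)
    rcases List.mem_cons.1 this with e | this
    · exact absurd (congrArg Prod.fst e) (hne s hs)
    exact this
  · refine Pa_append.2 ⟨m2, Pa_append.2 ⟨m1, p4, ?_⟩, ?_⟩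
    · rwa [← p5, hs]
    · rwa [← p2, ← hs]
  · obtain ⟨i, b, rfl⟩ := isC_false hy
    let μ : DD α →* DD α := FreeGroup.lift fun x => if x = Sum.inl i then 1 else of x
    have k1 : ∀ c, μ (kv (Sum.inl i, c)) = 1 := fun c =>
      Mov_kv μ i c 1 (by simp only [μ, lift_apply_of, if_true, MonoidHom.one_apply])
    have k2 : ∀ s ∈ B ++ C ++ D, μ (kv s) = kv s := by
      rintro ⟨j | k, c⟩ hj
      · refine Mov_kv μ j c (MonoidHom.id _) ?_
        have : (Sum.inl j : ℕ ⊕ α) ≠ Sum.inl i := fun e =>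
          hne _ hj (congrArg Sum.inl (Sum.inl.inj e))
        simp only [μ, lift_apply_of, if_neg this, MonoidHom.id_apply]
      · exact map_one μ
    have k3 : lp T E (Sum.inl i, b) = 1 := by rw [lp, hv, hs]; group
    have k4 : lp T E (Sum.inl i, true) = 1 := by
      cases b
      · exact (lp_bar T E (Sum.inl i, false)).trans (by rw [k3, inv_one])
      · exact k3
    refine h4.sim μ ?_ fun x => ?_
    · simp only [kl_append, kl_cons, map_mul]
      rw [k1, show μ (kv (bar (Sum.inl i, b))) = 1 from k1 _,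
        Mov_fix μ fun s hs => k2 s (by simp [hs]), Mov_fix μ fun s hs => k2 s (by simp [hs]),
        Mov_fix μ fun s hs => k2 s (by simp [hs]), one_mul, one_mul]
    · simp only [μ, lift_apply_of]
      split_ifs with e
      · rw [e, map_one]
        simp only [tt, lift_apply_of, Sum.elim_inl, k4]
      · rfl
  · simp only [vl_append, vl_cons, val_bar, hv, inv_one, one_mul] at h5 ⊢
    exact h5

theorem Mov_six (T : Tg α) (A : FreeGroup α →* T.P) (E : Env α) (s s' : Sd α) (B : List (Sd α))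
    (hp : Pair s s') (h : Ok T A E (s :: s' :: B)) : Ok T A E B := by
  obtain ⟨⟨a, h1, h2, ⟨p1, -, p3⟩, h4⟩, h5⟩ := h
  rw [List.nodup_cons, List.nodup_cons, List.mem_cons, not_or] at h1
  have k : se T E s' = ss T E s ∧ E.val s * E.val s' = 1 ∧ kv s * kv s' = 1 ∧
      ∀ u ∈ B, isC u = false → bar u ≠ s ∧ bar u ≠ s' := by
    rcases hp with ⟨-, rfl⟩ | ⟨j, j', l, b, rfl, rfl⟩
    · refine ⟨se_bar T E s, by rw [val_bar, mul_inv_cancel], by rw [kv_bar, mul_inv_cancel],
        fun u hu _ => ⟨fun e => h1.2.1 ?_, fun e => h1.1.2 ?_⟩⟩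
      · rwa [← e, bar_bar]
      · rwa [← bar_bar s, ← e, bar_bar]
    · refine ⟨by cases b <;> rfl, ?_, one_mul _, fun u _ hc => ⟨fun e => ?_, fun e => ?_⟩⟩
      · cases b
        · exact inv_mul_cancel _
        · exact mul_inv_cancel _
      · rw [← isC_bar, e] at hc; cases hc
      · rw [← isC_bar, e] at hc; cases hc
  obtain ⟨k1, k2, k3, k4⟩ := k
  refine ⟨⟨a, h1.2.2, fun u hu hc => ?_, by rwa [k1, p1] at p3, Mov_inv h4 ?_⟩, ?_⟩
  · have := h2 u (by simp [hu]) hc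
    simpa [(k4 u hu hc).1, (k4 u hu hc).2] using this
  · rw [kl_cons, kl_cons, ← mul_assoc, k3, one_mul]
  · rwa [vl_cons, vl_cons, ← mul_assoc, k2, one_mul] at h5

theorem movSt (hN : NxSt) : MovSt := by
  intro α T A
  refine ⟨Mov_one hN T A, fun E Q Q' h h0 => ⟨Mov_one hN T A E Q Q' h h0.1, ?_⟩, ?_,
    Mov_four T A, Mov_five T A, Mov_six T A, ?_⟩
  · obtain ⟨X, Y, rfl, rfl⟩ := Mov_rot h
    have := h0.2
    rw [vl_append] at this ⊢
    exact mul_eq_one_comm.1 this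
  · rintro E a Q U ⟨h1, h2, h3, h4⟩ u1 u2 u3 u4 u5
    refine ⟨List.nodup_append.2 ⟨h1, u1, fun s hs t ht e => u3 t ht (e ▸ hs)⟩, fun s hs hc => ?_,
      Pa_append.2 ⟨a, h3, u4⟩, Mov_inv h4 (by rw [kl_append, u5, mul_one])⟩
    rcases List.mem_append.1 hs with hs | hs
    · exact List.mem_append_left _ (h2 s hs hc)
    · exact List.mem_append_right _ (u2 s hs hc)
  · rintro E Q c ⟨⟨a, -, h2, -, -⟩, h5⟩ hc
    match Q, hc with
    | [u], _ =>
      exfalso
      cases hu : isC u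
      · exact bar_ne u (List.mem_singleton.1 (h2 u List.mem_cons_self hu))
      · obtain ⟨j, l, b, rfl⟩ := isC_true hu
        rw [vl_cons, vl_nil, mul_one, val_C] at h5
        exact lt_ne_one _ h5
    | _ :: _ :: _, _ => simp

end Pool.Agent.MN
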