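import Pool.Agent.Lib.MP_c86c76_al.N.St

/-!
The cyclic successor in a list.
-/

set_option autoImplicit false

namespace Pool.Agent.MN

open Pool.Agent.MB
open FreeGroup hiding map_mul map_inv map_one

section
variable {σ : Type}

theorem nx_split {Q Q' : List σ} (h : Q ~r Q') : ∃ A B, Q = A ++ B ∧ Q' = B ++ A := by
  obtain ⟨n, hn, rfl⟩ := List.isRotated_iff_mod.1 h
  exact ⟨Q.take n, Q.drop n, (List.take_append_drop n Q).symm, List.rotate_eq_drop_append_take hn⟩

theorem nx_adj {Q : List σ} {u v : σ} (h : Adj Q u v) : Nx Q u v := by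
  obtain ⟨l1, l2, rfl⟩ := h
  exact ⟨l2 ++ l1, by simpa using List.isRotated_append (l := l1) (l' := u :: v :: l2)⟩

theorem nx_last (M : List σ) (u v : σ) : Nx (v :: M ++ [u]) u v :=
  ⟨M, by simpa using List.isRotated_append (l := v :: M) (l' := [u])⟩

theorem nx_cases {Q : List σ} {u v : σ} (h : Nx Q u v) :
    Adj Q u v ∨ ∃ M, Q = v :: M ++ [u] := by
  obtain ⟨R, hR⟩ := h
  obtain ⟨A, B, rfl, e⟩ := nx_split hR
  rcases B with _ | ⟨b, _ | ⟨b', B⟩⟩
  · left; exact ⟨[], R, by simpa using e.symm⟩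
  · right
    simp only [List.cons_append, List.nil_append, List.cons.injEq] at e
    obtain ⟨rfl, rfl⟩ := e
    exact ⟨R, rfl⟩
  · left
    simp only [List.cons_append, List.cons.injEq] at e
    obtain ⟨rfl, rfl, -⟩ := e
    exact ⟨A, B, rfl⟩

theorem nx_head {u : σ} {R R' : List σ} (hn : (u :: R).Nodup) (h : u :: R ~r u :: R') :
    R = R' := by
  obtain ⟨A, B, e, e'⟩ := nx_split h
  rcases A with _ | ⟨a, A⟩
  · simp only [List.nil_append, List.append_nil] at e e'
    exact (List.cons.inj (e.trans e'.symm)).2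
  rcases B with _ | ⟨b, B⟩
  · simp only [List.nil_append, List.append_nil] at e e'
    exact (List.cons.inj (e.trans e'.symm)).2
  · simp only [List.cons_append, List.cons.injEq] at e e'
    obtain ⟨rfl, rfl⟩ := e
    obtain ⟨rfl, -⟩ := e'
    simp at hn

theorem nx_right {Q : List σ} {u v v' : σ} (hn : Q.Nodup) (h : Nx Q u v) (h' : Nx Q u v') :
    v = v' := by
  obtain ⟨R, hR⟩ := h
  obtain ⟨R', hR'⟩ := h'
  exact (List.cons.inj (nx_head (hR.nodup_iff.1 hn) (hR.symm.trans hR'))).1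

theorem nx_left {Q : List σ} {u u' v : σ} (hn : Q.Nodup) (h : Nx Q u v) (h' : Nx Q u' v) :
    u = u' := by
  obtain ⟨R, hR⟩ := h
  obtain ⟨R', hR'⟩ := h'
  have r : ∀ (w : σ) (L : List σ), w :: v :: L ~r v :: (L ++ [w]) := fun w L => by
    simpa using List.isRotated_append (l := [w]) (l' := v :: L)
  have e := nx_head ((hR.trans (r u R)).nodup_iff.1 hn)
    ((hR.trans (r u R)).symm.trans (hR'.trans (r u' R')))
  simpa using (List.append_inj' e rfl).2

theorem nx_rot {S : Type} (ss se : σ → S) {Q Q' : List σ} (h : Q ~r Q')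
    (hp : ∃ a, Pa ss se a Q a) : ∃ a, Pa ss se a Q' a := by
  obtain ⟨A, B, rfl, rfl⟩ := nx_split h
  obtain ⟨a, ha⟩ := hp
  obtain ⟨m, h1, h2⟩ := Pa_append.1 ha
  exact ⟨m, Pa_append.2 ⟨a, h2, h1⟩⟩

theorem nx_path {S : Type} (ss se : σ → S) (t : σ) : ∀ (L : List σ) (s : σ),
    (∀ u v, Adj (s :: L ++ [t]) u v → se u = ss v) → Pa ss se (ss s) (s :: L ++ [t]) (se t)
  | [], s, h => ⟨rfl, (h s t ⟨[], [], rfl⟩).symm, rfl⟩
  | x :: L, s, h => by
    refine ⟨rfl, ?_⟩
    rw [h s x ⟨[], L ++ [t], rfl⟩]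
    refine nx_path ss se t L x fun u v ⟨l1, l2, e⟩ => h u v ⟨s :: l1, l2, ?_⟩
    simp only [List.cons_append] at e ⊢
    rw [e]

end

theorem nxSt : NxSt := by
  intro σ
  refine ⟨fun Q Q' u v h ⟨R, hR⟩ => ⟨R, h.symm.trans hR⟩, fun Q u v ⟨R, hR⟩ => ?_,
    fun Q u hl hu => ?_, fun Q u v v' => nx_right, fun Q u u' v => nx_left,
    fun S ss se Q Q' => nx_rot ss se, fun S ss se Q u v hp ⟨R, hR⟩ => ?_,
    fun S ss se Q hl h => ?_, fun A B c y z hn => ⟨fun v hv h => ?_, fun u v hc hz hv h => ?_⟩⟩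
  · exact ⟨hR.mem_iff.2 (by simp), hR.mem_iff.2 (by simp)⟩
  · obtain ⟨A, B, rfl⟩ := List.append_of_mem hu
    rcases e : B ++ A with _ | ⟨v, R⟩
    · obtain ⟨rfl, rfl⟩ := List.append_eq_nil_iff.1 e
      simp at hl
    · exact ⟨v, R, by simpa [← e] using List.isRotated_append (l := A) (l' := u :: B)⟩
  · obtain ⟨a, -, h, -⟩ := nx_rot ss se hR hp
    exact h.symm
  · rcases Q with _ | ⟨s, L⟩
    · simp at hl
    rcases L.eq_nil_or_concat with rfl | ⟨M, t, rfl⟩
    · simp at hl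
    rw [List.concat_eq_append, ← List.cons_append] at h ⊢
    refine ⟨ss s, ?_⟩
    have := nx_path ss se t M s fun u v a => h u v (nx_adj a)
    rwa [h t s (nx_last M t s)] at this
  · rcases B with _ | ⟨b, B⟩
    · exact absurd (nx_right hn h (nx_last (y :: A) z c)) hv
    · rw [nx_right hn h (nx_adj ⟨c :: y :: A, B, rfl⟩)]
      exact nx_adj ⟨y :: A ++ [z], B, by simp⟩
  · rcases nx_cases h with ⟨l1, l2, e⟩ | ⟨M, e⟩
    · rcases l1 with _ | ⟨c', l1⟩
      · exact absurd (List.cons.inj e).1.symm hc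
      have e' : (y :: A ++ [z]) ++ B = l1 ++ u :: v :: l2 := by
        simpa using (List.cons.inj e).2
      have g : y :: A ++ z :: c :: B = (y :: A ++ [z]) ++ c :: B := by simp
      refine nx_adj ?_
      rw [g]
      rcases List.append_eq_append_iff.1 e' with ⟨a, -, rfl⟩ | ⟨a, e1, e2⟩
      · exact ⟨(y :: A ++ [z]) ++ c :: a, l2, by simp⟩
      · rcases a with _ | ⟨a, _ | ⟨a', D⟩⟩
        · obtain rfl : u :: v :: l2 = B := e2
          exact ⟨(y :: A ++ [z]) ++ [c], l2, by simp⟩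
        · obtain rfl : u = a := (List.cons.inj e2).1
          exact absurd (by simpa using (List.append_inj' e1 rfl).2.symm) hz
        · simp only [List.cons_append, List.cons.injEq] at e2
          obtain ⟨rfl, rfl, -⟩ := e2
          exact ⟨l1, D ++ c :: B, by rw [e1]; simp⟩
    · exact absurd (List.cons.inj e).1.symm hv

end Pool.Agent.MN
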