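import Pool.Agent.Lib.MP_c86c76_al.N.St

/-!
Rank arguments with the intersection form of the relator.
-/

set_option autoImplicit false

namespace Pool.Agent.MN

open Pool.Agent.MB
open FreeGroup hiding map_mul map_inv map_one

variable {α β : Type}

theorem rank_nul (T : Tg α) : Null T.r := T.nul

theorem rank_three (T : Tg α) (ψ : FreeGroup α →* FreeGroup α) (d : ℤ) (hs : Sur ψ)
    (h : ∀ a b, om a b (ψ T.r) = d * om a b T.r) : d = 1 ∨ d = -1 := by
  have hp : ∀ e : α → ℤ, ∃ a, pb ψ a = e := fun e =>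
    (hs e).imp fun a ha => funext fun x => (ha _).trans (ch_of e x)
  refine Int.isUnit_iff.1 (isUnit_of_dvd_one (T.uni 1 d (fun e => ?_) T.la.1))
  obtain ⟨a, ha⟩ := hp 1
  obtain ⟨b, hb⟩ := hp e
  exact ⟨om a b T.r, by rw [← h, om_pb (rank_nul T), ha, hb]; rfl⟩

theorem rank_key (T : Tg α) (lam : FreeGroup α →* FreeGroup β) (nu : FreeGroup β →* FreeGroup α)
    (hs : Sur (nu.comp lam)) (a : β → ℤ) :
    ∃ a0, ∀ b, om a b (lam T.r) = om (pb nu a0) b (lam T.r) := by
  obtain ⟨a0, h⟩ := hs (pb lam a)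
  have : pb lam (pb nu a0) = pb lam a := funext fun x =>
    (ch_pb nu a0 _).trans ((h (of x)).trans (ch_of _ x))
  exact ⟨a0, fun b => by rw [om_pb (rank_nul T), om_pb (rank_nul T), this]⟩

theorem rank_zero (T : Tg α) {a : α → ℤ} {d : ℤ} (hd : d ≠ 0) (h : ∀ b, d * om a b T.r = 0) :
    a = 0 := funext fun x =>
  zero_dvd_iff.1 (T.uni a 0 (fun b => zero_dvd_iff.2 ((mul_eq_zero.1 (h b)).resolve_left hd)) x)

theorem rank_half (T : Tg α) (lam : FreeGroup α →* FreeGroup β) (nu : FreeGroup β →* FreeGroup α)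
    (hs : Sur (nu.comp lam)) {S : Set β} {p q : FreeGroup β} (hp : p ∈ Fr S) (hq : q ∈ Fr Sᶜ)
    (nq : Null q) (H : ∀ a b, om a b (lam T.r) = om a b p + om a b q) {d : ℤ}
    (hd : ∀ a b, om a b (nu q) = d * om a b T.r) (h0 : d ≠ 0) (a b : β → ℤ) : om a b p = 0 := by
  have q0 : ∀ c, om (Sᶜ.indicator a) c q = 0 := fun c =>
    ((om_Fr hq).2 _ 0 c c (fun x hx => Set.indicator_of_notMem hx a) fun _ _ => rfl).trans
      (om_zero_left c q)
  have p0 : ∀ c e, om c (S.indicator e) p = 0 := fun c e =>
    ((om_Fr hp).2 c c _ 0 (fun _ _ => rfl) fun x hx => Set.indicator_of_notMem hx e).trans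
      (om_zero_right c p)
  obtain ⟨a0, h⟩ := rank_key T lam nu hs (Sᶜ.indicator a)
  obtain rfl : a0 = 0 := rank_zero T h0 fun b0 => by
    have := h (S.indicator (pb nu b0))
    rw [H, H, q0, p0, p0, (om_Fr hq).2 _ (pb nu a0) _ (pb nu b0) (fun _ _ => rfl)
      (fun x hx => Set.indicator_of_mem (not_not.1 hx) _), ← om_pb nq, hd] at this
    omega
  have := h b
  rw [show pb nu 0 = 0 from funext fun x => ch_zero _, om_zero_left, H, q0, add_zero] at this
  exact ((om_Fr hp).2 a _ b b (fun x hx => (Set.indicator_of_mem (s := Sᶜ) hx a).symm)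
    fun _ _ => rfl).trans this

theorem rankSt : RankSt := fun α β T lam => by
  refine ⟨fun nu S p q hs hp hq np nq hc ep eq => ?_, fun Θ q k m hs hc h => ?_, rank_three T⟩
  · obtain ⟨-, dp, hdp⟩ := om_ncl (rank_nul T) ((pj_eq_one T _).1 ep)
    obtain ⟨-, dq, hdq⟩ := om_ncl (rank_nul T) ((pj_eq_one T _).1 eq)
    have H : ∀ a b, om a b (lam T.r) = om a b p + om a b q := fun a b => by
      rw [om_conj ((rank_nul T).map lam) hc, np.om_mul]
    by_cases e : dq = 0
    · refine .inr (rank_half T lam nu hs hq (by rwa [compl_compl]) np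
        (fun a b => (H a b).trans (add_comm _ _)) hdp fun e' => ?_)
      have := rank_three T (nu.comp lam) 0 hs fun a b => by
        rw [MonoidHom.comp_apply, om_pb ((rank_nul T).map lam), H, ← om_pb np, ← om_pb nq, hdp, hdq,
          e, e']
        simp
      omega
    · exact .inl (rank_half T lam nu hs hp hq nq H hdq e)
  · have H : ∀ a b, om a b (Θ.comp lam T.r) =
        k * om (fun x => a (x, true)) (fun x => b (x, true)) T.r +
          m * om (fun x => a (x, false)) (fun x => b (x, false)) T.r := fun a b => by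
      have e : ∀ s (c : α × Bool → ℤ), pb (io s) c = fun x => c (x, s) := fun s c =>
        funext fun x => ch_of c (x, s)
      rw [om_conj ((rank_nul T).map (Θ.comp lam)) (Θ.map_isConj hc), h, om_pb (rank_nul T),
        om_pb (rank_nul T), e, e, e, e]
    obtain ⟨a0, h0⟩ := rank_key T (Θ.comp lam) _ hs fun l => cond l.2 1 0
    rw [show pb (FreeGroup.map Prod.fst) a0 = fun l : α × Bool => a0 l.1 from
      funext fun l => ch_of a0 l.1] at h0
    by_contra o
    obtain ⟨hk, hm⟩ := not_or.1 o
    have z1 := om_zero_left (β := α)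
    have z2 := om_zero_right (β := α)
    simp only [Pi.zero_def] at z1 z2
    obtain rfl : a0 = 0 := rank_zero T hm fun b => by
      have := h0 fun l => cond l.2 0 (b l.1)
      simp only [H, cond_true, cond_false, z1, z2] at this
      simpa using this.symm
    have := rank_zero T (a := fun _ => 1) hk fun b => by
      have := h0 fun l => cond l.2 (b l.1) 0
      simp only [H, cond_true, cond_false, z1, Pi.zero_apply] at this
      simpa using this
    exact one_ne_zero (congrFun this T.la.1)

end Pool.Agent.MN
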