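import Pool.Agent.Lib.MP_c86c76_al.N.St

/-!
A cancelling pair of sides around a trivial part can be removed.
-/

set_option autoImplicit false

namespace Pool.Agent.MN

open Pool.Agent.MB
open FreeGroup hiding map_mul map_inv map_one

variable {α : Type}

theorem Red_pair (T : Tg α) (E : Env α) {s s' : Sd α} (h : Pair s s') : ss T E s' = se T E s := by
  rcases h with ⟨-, rfl⟩ | ⟨j, j', l, b, rfl, rfl⟩
  · rfl
  · cases b <;> rfl

theorem Red_ne {s s' y : Sd α} (h : Pair s s') (hy : isC y = false) (h1 : y ≠ s) (h2 : y ≠ s') :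
    bar y ≠ s ∧ bar y ≠ s' := by
  rcases h with ⟨-, rfl⟩ | ⟨j, j', l, b, rfl, rfl⟩
  · exact ⟨fun e => h2 (by rw [← e, bar_bar]), fun e => h1 (by rw [← bar_bar y, e, bar_bar])⟩
  · obtain ⟨i, c, rfl⟩ := isC_false hy
    exact ⟨fun e => (by cases e), fun e => (by cases e)⟩

theorem Red_nd {σ : Type} {U1 U2 B1 B2 : List σ} {y z s s' u : σ}
    (nd : (U1 ++ y :: U2 ++ (s' :: (B1 ++ z :: B2) ++ [s])).Nodup)
    (hu : u ∈ B1 ++ U2 ++ U1 ++ B2) : u ≠ y ∧ u ≠ z := by
  classical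
  have k1 := List.nodup_iff_count_le_one.1 nd u
  have k2 := List.count_pos_iff.2 hu
  simp only [List.count_append, List.count_cons] at k1 k2
  constructor <;> rintro rfl <;> simp only [beq_self_eq_true, if_true] at k1 <;> omega

theorem Red_last (hM : MovSt) {T : Tg α} {A : FreeGroup α →* T.P} {E : Env α} {s s' : Sd α}
    {L : List (Sd α)} (hp : Pair s s') (h : Ok T A E (s' :: L ++ [s])) : Ok T A E L :=
  (hM α T A).2.2.2.2.2.1 E s s' L hp ((hM α T A).2.1 E _ _ List.isRotated_append h)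

theorem Red_rot (hM : MovSt) (hC : CutSt) (hD : DropSt) {T : Tg α} {A : FreeGroup α →* T.P}
    {E : Env α} {s s' : Sd α} {U L : List (Sd α)} (hi : Iso T A)
    (h : Ok T A E (U ++ (s' :: L ++ [s]))) (hu : E.vl U = 1) (hp : Pair s s') :
    ∃ E' Q', Ok T A E' Q' ∧ ∀ u ∈ Q', (u ∈ U ∨ u ∈ L) ∧ E'.val u = E.val u := by
  obtain ⟨a, nd, cl, pt, -⟩ := h.1
  obtain ⟨m, p1, p2⟩ := Pa_append.1 pt
  obtain ⟨m', p3, p4⟩ := Pa_append.1 p2
  have e1 : m = a := by
    rw [← p3.1, Red_pair T E hp]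
    exact p4.2
  subst e1
  by_cases hc : Clo U
  · rcases hD α T A E m U _ hi h hc p1 hu with h' | h'
    · exact ⟨E, U, h', fun u hu => ⟨Or.inl hu, rfl⟩⟩
    · exact ⟨E, L, Red_last hM hp h', fun u hu => ⟨Or.inr hu, rfl⟩⟩
  · simp only [Clo, not_forall] at hc
    obtain ⟨y, hy, cy, ny⟩ := hc
    have dj := List.disjoint_of_nodup_append nd
    obtain ⟨n1, n2⟩ := Red_ne hp cy (fun e => dj hy (by simp [e])) fun e => dj hy (by simp [e])
    have hb : bar y ∈ L := by
      have := cl y (List.mem_append_left _ hy) cy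
      simpa [ny, n1, n2] using this
    obtain ⟨U1, U2, rfl⟩ := List.append_of_mem hy
    obtain ⟨B1, B2, rfl⟩ := List.append_of_mem hb
    obtain ⟨E', o1, v1, t1, r1⟩ := hC α T A E y U1 U2 (s' :: B1) (B2 ++ [s]) cy
      (by simpa [List.append_assoc] using h)
    obtain ⟨t2, t3⟩ := t1 m m p1
    have o2 := (hM α T A).2.2.2.2.1 E' y [] (s' :: B1 ++ U2) (U1 ++ (B2 ++ [s])) cy
      (by simpa [List.append_assoc] using o1) (v1.trans hu) (t2.trans t3.symm)
    refine ⟨E', B1 ++ U2 ++ U1 ++ B2, Red_last hM hp (by simpa [List.append_assoc] using o2),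
      fun u hu => ⟨by simp only [List.mem_append, List.mem_cons] at hu ⊢; tauto,
        (r1 u fun e => ?_).1⟩⟩
    exact (eq_or_bar e).elim (Red_nd nd hu).1 (Red_nd nd hu).2

theorem redSt (hM : MovSt) (hC : CutSt) (hD : DropSt) : RedSt := by
  intro α T A E s s' B U C hi h hu hp
  have r : B ++ s :: U ++ s' :: C ~r U ++ (s' :: (C ++ B) ++ [s]) := by
    have := List.isRotated_append (l := B ++ [s]) (l' := U ++ s' :: C)
    simpa [List.append_assoc] using this
  obtain ⟨E', Q', h1, h2⟩ := Red_rot hM hC hD hi ((hM α T A).2.1 E _ _ r h) hu hp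
  refine ⟨E', Q', h1, fun u hu => ⟨?_, (h2 u hu).2⟩⟩
  have := (h2 u hu).1
  simp only [List.mem_append] at this ⊢
  tauto

end Pool.Agent.MN
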