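import Pool.Agent.Lib.MP_c86c76_al.N.St

/-!
The product of the signed values, and the lift read from a polygon with constants of one sign.
-/

set_option autoImplicit false

namespace Pool.Agent.MN

open Pool.Agent.MB
open FreeGroup hiding map_mul map_inv map_one

variable {α : Type}

theorem Sgn_short {E : Env α} {Q : List (Sd α)} (h : Triv E Q) : Short E Q := by
  intro s hs
  cases e : isC s
  · exact Or.inl (h s hs e)
  · obtain ⟨j, l, b, rfl⟩ := isC_true e
    exact Or.inr ⟨_, val_C E j l b⟩

theorem Sgn_block (hF : FindSt) {E : Env α} {Q : List (Sd α)} (hT : Triv E Q) (hO : NoOpp E Q)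
    (n : ℕ) : ∀ P U R : List (Sd α), U.length ≤ n → Q = P ++ U ++ R → E.vl U = 1 →
      (U.map fun s => io s.2 (E.val s)).prod = 1 := by
  induction n with
  | zero =>
    intro P U R hn _ _
    rw [List.length_eq_zero_iff.1 (Nat.le_zero.1 hn)]
    rfl
  | succ n ih =>
    intro P U R hn hQ hU
    cases U with
    | nil => rfl
    | cons s V =>
      have hn' : V.length ≤ n := Nat.le_of_succ_le_succ hn
      have hm : ∀ u ∈ s :: V, u ∈ Q := fun u hu => by
        rw [hQ]; exact List.mem_append_left _ (List.mem_append_right _ hu)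
      rw [vl_cons] at hU
      rw [List.map_cons, List.prod_cons]
      cases e : isC s
      · have e1 := hT s (hm s List.mem_cons_self) e
        rw [e1, one_mul] at hU
        rw [e1, map_one, one_mul]
        exact ih (P ++ [s]) V R hn' (by simp [hQ]) hU
      · obtain ⟨x, hx⟩ : ∃ x, E.val s = lt x := by
          obtain ⟨j, l, b, rfl⟩ := isC_true e
          exact ⟨_, val_C E j l b⟩
        rw [hx] at hU
        obtain ⟨U, s', B, rfl, h1, h2, h3⟩ := (hF α (Sd α) E.val).1 V x
          (fun u hu => Sgn_short hT u (hm u (List.mem_cons_of_mem _ hu))) hU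
        have e' : isC s' = true := by
          cases e' : isC s'
          · rw [hT s' (hm s' (by simp)) e', mul_one] at h2
            exact absurd h2 (lt_ne_one x)
          · rfl
        rw [← hx] at h2
        have hs := hO P s U s' (B ++ R) (by simp [hQ]) h1 e e' h2
        rw [List.length_append, List.length_cons] at hn'
        rw [List.map_append, List.prod_append, List.map_cons, List.prod_cons,
          ih (P ++ [s]) U (s' :: B ++ R) (by omega) (by simp [hQ]) h1,
          ih (P ++ s :: U ++ [s']) B R (by omega) (by simp [hQ]) h3, one_mul, mul_one, ← hs,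
          ← map_mul, h2, map_one]

theorem sgnSt (hF : FindSt) : SgnSt := fun _ _ Q hv hT hO =>
  Sgn_block hF hT hO Q.length [] Q [] le_rfl (by simp) hv

theorem Sgn_null (T : Tg α) (b : Bool) : Null (cond b T.r T.r⁻¹) := by
  cases b
  · exact Null.inv T.nul
  · exact T.nul

theorem endSt (hR : RankSt) : EndSt := by
  classical
  intro α T A E Q b hI hOk hb
  obtain ⟨⟨a0, _, _, hP, lam, hc, hj⟩, hv⟩ := hOk
  have h0 : Null T.r := T.nul
  have h1 : (Q.map (lp T E)).prod = 1 := by rw [lp_tele hP, hv, mul_one, mul_inv_cancel]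
  let q : Sd α → Bool := fun s => decide (∃ j, s.1 = Sum.inr (j, T.la))
  have hq : ∀ c ∈ Q, q c = true → lp T E c = cond b T.r T.r⁻¹ := by
    rintro ⟨x, b'⟩ hc h
    obtain ⟨j, rfl⟩ : ∃ j, x = Sum.inr (j, T.la) := of_decide_eq_true h
    have : b' = b := hb _ hc rfl
    rw [← this]
    exact (lp_C T E j T.la b').2 rfl
  have h2 : tt T E (kl Q) = (Q.map fun s => cond (q s) 1 (lp T E s)).prod := by
    rw [tt_kl]
    refine congrArg List.prod (List.map_congr_left fun s _ => ?_)
    cases e : isC s
    · obtain ⟨i, b', rfl⟩ := isC_false e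
      have : q (Sum.inl i, b') = false := decide_eq_false fun ⟨j, h⟩ => by cases h
      rw [this]
    · obtain ⟨j, l, b', rfl⟩ := isC_true e
      cases e' : q (Sum.inr (j, l), b')
      · refine ((lp_C T E j l b').1 fun h => ?_).symm
        have : q (Sum.inr (j, l), b') = true := decide_eq_true ⟨j, by rw [h]⟩
        rw [this] at e'
        cases e'
      · rfl
  have h3 : IsConj (((tt T E).comp lam) T.r) (Q.map fun s => cond (q s) 1 (lp T E s)).prod :=
    h2 ▸ (tt T E).map_isConj hc
  have h4 : ∀ a a', om a a' (((tt T E).comp lam) T.r) =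
      -((Q.filter q).length * om a a' (cond b T.r T.r⁻¹)) := fun a a' => by
    have i := (om_sum q (lp T E) a a' Q fun c hc h => hq c hc h ▸ Sgn_null T b).2
    have e : (Q.filter q).map (fun c => om a a' (lp T E c)) =
        (Q.filter q).map fun _ => om a a' (cond b T.r T.r⁻¹) :=
      List.map_congr_left fun c hc => by
        rw [hq c (List.mem_filter.1 hc).1 (List.mem_filter.1 hc).2]
    rw [h1, om_one, e, List.map_const', List.sum_replicate, nsmul_eq_mul] at i
    rw [om_conj (h0.map _) h3]
    exact eq_neg_of_add_eq_zero_left i.symm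
  have h5 : (Q.filter q).length = 1 := by
    have i := (hR α α T (MonoidHom.id _)).2.2 ((tt T E).comp lam)
      (cond b (-((Q.filter q).length : ℤ)) (Q.filter q).length) (hI.sur _ hj) fun a a' => by
        rw [h4]
        cases b
        · rw [cond_false, cond_false, h0.om_inv, mul_neg, neg_neg]
        · rw [cond_true, cond_true, neg_mul]
    cases b <;> simp only [cond_true, cond_false] at i <;> omega
  obtain ⟨c, hc1⟩ := List.length_eq_one_iff.1 h5
  obtain ⟨B, C, rfl, hB, hqc, hC⟩ := List.filter_eq_cons_iff.1 hc1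
  have h6 : ∀ L : List (Sd α), (∀ s ∈ L, ¬ q s = true) →
      (L.map fun s => cond (q s) 1 (lp T E s)) = L.map (lp T E) := fun L h =>
    List.map_congr_left fun s hs => by rw [Bool.eq_false_iff.2 (h s hs)]; rfl
  rw [List.map_append, List.prod_append, List.map_cons, List.prod_cons, hq c (by simp) hqc] at h1
  rw [List.map_append, List.prod_append, List.map_cons, List.prod_cons, hqc, cond_true, one_mul,
    h6 B hB, h6 C (List.filter_eq_nil_iff.1 hC)] at h3
  have h7 : IsConj (cond b T.r T.r⁻¹)⁻¹ ((B.map (lp T E)).prod * (C.map (lp T E)).prod) :=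
    isConj_iff.2 ⟨(B.map (lp T E)).prod, by
      rw [← mul_assoc] at h1
      rw [eq_inv_of_mul_eq_one_right h1, mul_inv_rev, mul_assoc]⟩
  refine ⟨(tt T E).comp lam, ?_, hj⟩
  have h8 := h3.trans h7.symm
  cases b
  · exact Or.inl (by simpa using h8)
  · exact Or.inr h8

end Pool.Agent.MN
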