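import Pool.Agent.Lib.MP_c86c76_al.N.St

/-!
Subdivision of long sides.
-/

set_option autoImplicit false

namespace Pool.Agent.MN

open Pool.Agent.MB
open FreeGroup hiding map_mul map_inv map_one

variable {α : Type} [DecidableEq α]

/-- The excess length. -/
def shortMu (E : Env α) (Q : List (Sd α)) : ℕ := (Q.map fun s => (E.val s).norm - 1).sum

theorem short_le (w : FreeGroup α) (h : w.norm ≤ 1) : w = 1 ∨ ∃ l, w = lt l := by
  rw [← mk_toWord (x := w)]
  rw [FreeGroup.norm] at h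
  rcases e : toWord w with _ | ⟨l, _ | ⟨_, _⟩⟩
  · exact Or.inl rfl
  · exact Or.inr ⟨l, rfl⟩
  · simp [e] at h

theorem short_lt (l : α × Bool) : (lt l).norm ≤ 1 := norm_mk_le

theorem short_split (w : FreeGroup α) (h : 2 ≤ w.norm) :
    ∃ x v, w * v = lt x ∧ v.norm + 1 ≤ w.norm := by
  rcases e : toWord w with _ | ⟨l, L⟩
  · simp [FreeGroup.norm, e] at h
  · refine ⟨l, (mk L)⁻¹, ?_, ?_⟩
    · rw [← mk_toWord (x := w), e, mul_inv_eq_iff_eq_mul]
      rfl
    · rw [norm_inv_eq, FreeGroup.norm.eq_1 w, e]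
      exact Nat.succ_le_succ norm_mk_le

theorem short_step (hM : MovSt) (hC : CutSt) (T : Tg α) (A : FreeGroup α →* T.P) (E : Env α)
    (Q : List (Sd α)) (h : Ok T A E Q) (s : Sd α) (hs : s ∈ Q) (h2 : 2 ≤ (E.val s).norm) :
    ∃ E' Q', Ok T A E' Q' ∧ shortMu E' Q' < shortMu E Q ∧ kc Q' = kc Q := by
  obtain ⟨-, m2, m3, m4, -⟩ := hM α T A
  have hv : isC s = false := by
    by_contra hc
    obtain ⟨j, l, b, rfl⟩ := isC_true (Bool.not_eq_false _ ▸ hc : isC s = true)
    have := short_lt (cond b l (bar l))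
    rw [val_C] at h2
    omega
  obtain ⟨x, v, e1, e2⟩ := short_split _ h2
  obtain ⟨P, P', rfl⟩ := List.append_of_mem hs
  have r1 : P ++ s :: P' ~r (P' ++ P) ++ [s] := by
    simpa using List.isRotated_append (l := P ++ [s]) (l' := P')
  obtain ⟨⟨a, k0⟩, k1⟩ := m2 E _ _ r1 h
  have hb : bar s ∈ P' ++ P :=
    (List.mem_append.1 (k0.2.1 s (by simp) hv)).resolve_right (by simpa using bar_ne s)
  obtain ⟨B, C, hB⟩ := List.append_of_mem hb
  rw [hB] at r1 k0 k1
  obtain ⟨i, hi⟩ := Infinite.exists_notMem_finset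
    ((B ++ bar s :: C ++ [s]).map fun u : Sd α => Sum.elim id Prod.fst u.1).toFinset
  have fr : ∀ b, (Sum.inl i, b) ∉ B ++ bar s :: C ++ [s] := fun b hb =>
    hi (List.mem_toFinset.2 (List.mem_map.2 ⟨_, hb, rfl⟩))
  obtain ⟨E1, hE⟩ : ∃ E1 : Env α, E1 = ⟨Function.update E.th i v, Function.update E.st i a,
    Function.update E.en i a⟩ := ⟨_, rfl⟩
  obtain ⟨z, hz⟩ : ∃ z : Sd α, z = (Sum.inl i, true) := ⟨_, rfl⟩
  have z1 : E1.val z = v := by simp [hE, hz, Env.val, Env.nv]
  have z2 : ss T E1 z = a := by simp [hE, hz, ss]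
  have z3 : se T E1 z = a := by simp [hE, hz, se, ss, bar]
  have z4 : isC z = false := hz ▸ rfl
  obtain ⟨k2, k3⟩ := m4 E E1 a _ k0 fun j hj => by
    have : j ≠ i := fun e => fr true (e ▸ hj)
    simp [hE, this]
  have k4 := m3 E1 a _ [z, bar z] k2 (by simpa using (bar_ne z).symm)
    (fun u hu _ => by
      rcases List.mem_pair.1 hu with rfl | rfl <;> simp [bar_bar])
    (fun u hu => by
      rcases List.mem_pair.1 hu with rfl | rfl
      exacts [hz ▸ fr true, hz ▸ fr false])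
    ⟨z2, rfl, (se_bar T E1 z).trans z2⟩ (by simp [kl, kv_bar])
  have k5 : Ok T A E1 ([] ++ s :: [z] ++ (bar z :: B) ++ bar s :: C) := by
    refine m2 E1 _ _ ?_ ⟨⟨a, k4⟩, ?_⟩
    · simpa using List.isRotated_append (l := B ++ bar s :: C) (l' := [s, z, bar z])
    · rw [vl_append, vl_congr fun u hu => (k3 u hu).1, k1]
      simp [Env.vl, val_bar]
  obtain ⟨E2, o1, o2, -, o3⟩ := hC α T A E1 s [] [z] (bar z :: B) C hv k5
  have v1 : E2.val s = lt x := by
    rw [o2, ← e1, ← (k3 s (by simp)).1, ← z1]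
    simp [Env.vl]
  have v2 : E2.val z = v := by
    refine (o3 z fun e => ?_).1.trans z1
    rcases eq_or_bar e with e | e
    exacts [fr true (by simp [← hz, e]), fr true (by simp [← hz, e])]
  have nd := k0.1
  have v3 : ∀ u, u ∈ B ∨ u ∈ C → E2.val u = E.val u := fun u hu => by
    refine (o3 u fun e => ?_).1.trans (k3 u (by rcases hu with h | h <;> simp [h])).1
    simp only [List.nodup_append, List.nodup_cons, List.mem_append, List.mem_cons, ne_eq] at nd
    rcases eq_or_bar e with rfl | rfl <;> grind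
  have s1 : shortMu E2 B = shortMu E B :=
    congrArg List.sum (List.map_congr_left fun u hu => by rw [v3 u (Or.inl hu)])
  have s2 : shortMu E2 C = shortMu E C :=
    congrArg List.sum (List.map_congr_left fun u hu => by rw [v3 u (Or.inr hu)])
  refine ⟨E2, _, o1, ?_, ?_⟩
  · have := short_lt x
    rw [shortMu, shortMu, (r1.perm.map _).sum_eq]
    simp only [shortMu] at s1 s2
    simp only [List.map_append, List.map_cons, List.map_nil, List.sum_append, List.sum_cons,
      List.sum_nil, val_bar, norm_inv_eq, v1, v2, s1, s2]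
    omega
  · rw [kc, kc, r1.perm.countP_eq]
    simp [isC_bar, hv, z4]

theorem shortSt (_ : NxSt) (hM : MovSt) (hC : CutSt) : ShortSt := by
  classical
  intro α T A E Q h
  induction hn : shortMu E Q using Nat.strong_induction_on generalizing E Q with
  | _ n ih =>
    by_cases e : ∃ s ∈ Q, 2 ≤ (E.val s).norm
    · obtain ⟨s, hs, h2⟩ := e
      obtain ⟨E', Q', o1, o2, o3⟩ := short_step hM hC T A E Q h s hs h2
      obtain ⟨E'', Q'', p1, p2, p3⟩ := ih _ (hn ▸ o2) E' Q' o1 rfl
      exact ⟨E'', Q'', p1, p2, p3.trans o3⟩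
    · exact ⟨E, Q, h, fun s hs => short_le _ (by by_contra l; exact e ⟨s, hs, by omega⟩), rfl⟩

end Pool.Agent.MN
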