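import Pool.Agent.Lib.MP_c86c76_al.N.St

/-!
An endomorphism that hits the boundary word from a null-homologous word is onto, and free groups
of finite rank are Hopfian.
-/

set_option autoImplicit false

namespace Pool.Agent.MN

open Pool.Agent.MB
open FreeGroup hiding map_mul map_inv map_one

variable {α : Type}

/-- A cocycle with given values on the generators. -/
theorem surj_coc {X : Type} [MulAction (FreeGroup α) X] (δ : α → X → ℤ) :
    ∃ c : FreeGroup α → X → ℤ, (∀ u v p, c (u * v) p = c u p + c v (u⁻¹ • p)) ∧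
      ∀ x p, c (of x) p = δ x p := by
  let Φ : FreeGroup α →* (X → Multiplicative ℤ) ⋊[mulAutArrow] FreeGroup α :=
    FreeGroup.lift fun x => ⟨fun p => Multiplicative.ofAdd (δ x p), of x⟩
  have h : SemidirectProduct.rightHom.comp Φ = MonoidHom.id _ :=
    FreeGroup.ext_hom _ _ fun x => by simp [Φ]
  refine ⟨fun u p => ((Φ u).left p).toAdd, fun u v p => ?_, fun x p => by simp [Φ]⟩
  have e : (Φ u).right = u := DFunLike.congr_fun h u
  simp only [map_mul, SemidirectProduct.mul_left, e]
  rfl

theorem surj_tw [DecidableEq α] {P S : List (α × Bool)} {u : α × Bool} (h : u ∉ P) :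
    (P ++ u :: S).takeWhile (· ≠ u) = P := by
  rw [List.takeWhile_append_of_pos fun a ha => by simpa using fun e : a = u => h (e ▸ ha)]
  simp

theorem surj_sum [DecidableEq α] {X : Type} [MulAction (FreeGroup α) X]
    {c : FreeGroup α → X → ℤ} (hc : ∀ u v p, c (u * v) p = c u p + c v (u⁻¹ • p))
    {W : List (α × Bool)} (hW : W.Nodup) (p : X) :
    c (mk W) p = (W.map fun l => c (lt l) ((mk (W.takeWhile (· ≠ l)))⁻¹ • p)).sum := by
  induction W generalizing p with
  | nil =>
    have := hc 1 1 p
    rw [mul_one, inv_one, one_smul] at this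
    change c 1 p = 0
    omega
  | cons a W ih =>
    obtain ⟨h1, h2⟩ := List.nodup_cons.1 hW
    rw [Ess_cons, hc, ih h2, List.map_cons, List.sum_cons, List.takeWhile_cons_of_neg (by simp),
      ← one_eq_mk, inv_one, one_smul]
    refine congrArg (fun L : List ℤ => _ + L.sum) (List.map_congr_left fun l hl => ?_)
    rw [List.takeWhile_cons_of_pos (by simpa using fun e : a = l => h1 (e ▸ hl)), Ess_cons,
      mul_inv_rev, mul_smul]

theorem surjSt : SurjSt := fun α _ c ψ w hw e => by
  classical
  have := Fintype.ofFinite α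
  let o : FreeGroup α ⧸ ψ.range := (1 : FreeGroup α)
  have ho : ∀ g : FreeGroup α, g⁻¹ • o = o ↔ g ∈ ψ.range := fun g => by
    simp [o, QuotientGroup.eq]
  let B : α × Bool → FreeGroup α ⧸ ψ.range := fun l => (mk (c.W.takeWhile (· ≠ l)))⁻¹ • o
  have h1 : ∀ x, B (x, true) = of x • B (x, false) := fun x => by
    obtain ⟨k, k1, k2⟩ := surj_coc fun y p => if y = x ∧ p = B (x, true) then 1 else 0
    have k0 : ∀ p, k 1 p = 0 := fun p => by
      have := k1 1 1 p
      rw [mul_one, inv_one, one_smul] at this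
      omega
    have k3 : ∀ y p, k (lt (y, false)) p = -k (of y) (of y • p) := fun y p => by
      have := k1 (of y)⁻¹ (of y) p
      rw [inv_mul_cancel, k0, inv_inv] at this
      rw [Ess_lt_f]
      omega
    have := hw.hom (fun u => k (ψ u) o) fun u v => by
      rw [map_mul, k1, (ho _).2 ⟨u, rfl⟩]
    rw [e, Ctx.r, surj_sum k1 c.full.1, ← List.sum_toFinset _ c.full.1,
      Finset.eq_univ_of_forall fun l => List.mem_toFinset.2 (c.full.2 l), Fintype.sum_prod_type,
      Finset.sum_eq_single x (fun y _ hy => by simp [k3, Ess_lt_t, k2, hy]) (by simp),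
      Fintype.sum_bool, k3, Ess_lt_t, k2, k2, if_pos ⟨rfl, rfl⟩] at this
    by_contra n
    rw [if_neg fun h => n h.2.symm] at this
    omega
  have h2 : ∀ l, (lt l)⁻¹ • B l = B (bar l) := fun ⟨x, b⟩ => by
    cases b
    · exact (h1 x).symm
    · rw [h1]
      exact inv_smul_smul _ _
  have h3 : ∀ v, B v = o := by
    by_contra n
    obtain ⟨v, hv, hm⟩ := Set.exists_max_image {v | B v ≠ o} c.ρ (Set.toFinite _) (not_forall.1 n)
    obtain ⟨P, S, hW⟩ := List.append_of_mem (c.full.2 v)
    have nd := c.full.1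
    rw [hW] at nd
    have e1 : B v = (mk P)⁻¹ • o := by
      simp only [B, hW, surj_tw fun h => List.disjoint_of_nodup_append nd h List.mem_cons_self]
    obtain rfl | ⟨P, u, rfl⟩ := P.eq_nil_or_concat'
    · exact hv (e1.trans (one_smul _ _))
    · rw [List.append_assoc, List.singleton_append] at hW nd
      have e2 : B u = (mk P)⁻¹ • o := by
        simp only [B, hW, surj_tw fun h => List.disjoint_of_nodup_append nd h List.mem_cons_self]
      refine (c.ch u v ⟨P, S, hW⟩).not_ge (hm _ fun h => hv ?_)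
      rw [e1, ← mul_mk, mul_inv_rev, mul_smul, ← e2, ← h, ← h2]
      rfl
  intro g
  change g ∈ ψ.range
  induction g using FreeGroup.induction_on with
  | C1 => exact one_mem _
  | of x => exact (ho _).1 (by simpa only [h3, Ess_lt_t] using h2 (x, true))
  | inv_of x h => exact inv_mem h
  | mul u v hu hv => exact mul_mem hu hv

/-- A nontrivial element survives in a finite group. -/
theorem surj_rf {w : FreeGroup α} (hw : w ≠ 1) :
    ∃ (S : Finset (FreeGroup α)) (f : FreeGroup α →* Equiv.Perm S), f w ≠ 1 := by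
  classical
  obtain ⟨L, rfl⟩ : ∃ L, mk L = w := ⟨w.toWord, mk_toWord⟩
  let S : Finset (FreeGroup α) := (L.tails.map mk).toFinset
  have hS : ∀ M, M <:+ L → mk M ∈ S := fun M h =>
    List.mem_toFinset.2 (List.mem_map_of_mem ((List.mem_tails _ _).2 h))
  have hx : ∀ a : α, ∃ σ : Equiv.Perm S, ∀ t : {g : S × S // of a * g.1.1 = g.2.1},
      σ t.1.1 = t.1.2 := fun a => Equiv.Perm.exists_extending_pair _ _
    (fun s t h => Subtype.ext (Prod.ext h (Subtype.ext (by rw [← s.2, ← t.2, h]))))
    fun s t h => Subtype.ext (Prod.ext (Subtype.ext (mul_left_cancel (a := of a)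
      (by rw [s.2, t.2, h]))) h)
  choose σ hσ using hx
  have key : ∀ (M : List (α × Bool)) (h : M <:+ L),
      FreeGroup.lift σ (mk M) ⟨mk [], hS [] List.nil_suffix⟩ = ⟨mk M, hS M h⟩ := fun M h => by
    induction M with
    | nil => exact DFunLike.congr_fun (map_one (FreeGroup.lift σ)) _
    | cons l M ih =>
      have h' := (List.suffix_cons l M).trans h
      conv_lhs => rw [Ess_cons, map_mul, Equiv.Perm.mul_apply, ih h']
      obtain ⟨x, _ | _⟩ := l
      · rw [Ess_lt_f, map_inv, lift_apply_of, Equiv.Perm.inv_eq_iff_eq]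
        exact (hσ x ⟨(_, _), (congrArg _ (Ess_cons _ _)).trans (mul_inv_cancel_left _ _)⟩).symm
      · rw [Ess_lt_t, lift_apply_of]
        exact hσ x ⟨(_, _), (Ess_cons _ _).symm⟩
  refine ⟨S, FreeGroup.lift σ, fun h => hw ?_⟩
  have := key L List.suffix_rfl
  rw [h] at this
  exact (congrArg Subtype.val this).symm

theorem hopfSt : HopfSt := fun α _ ψ hψ => by
  refine (injective_iff_map_eq_one ψ).2 fun w hw => by_contra fun n => ?_
  obtain ⟨S, f, hf⟩ := surj_rf n
  have : Finite (FreeGroup α →* Equiv.Perm S) := Finite.of_equiv _ FreeGroup.lift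
  obtain ⟨g, rfl⟩ := Finite.surjective_of_injective (f := fun g : FreeGroup α →* Equiv.Perm S =>
    g.comp ψ) (fun g g' h => (MonoidHom.cancel_right hψ).1 h) f
  exact hf (by rw [MonoidHom.comp_apply, hw, map_one])

end Pool.Agent.MN
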