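import Pool.Agent.Lib.MP_c86c76_al.N.St

/-!
All variables can be made trivial.
-/

set_option autoImplicit false

namespace Pool.Agent.MN

open Pool.Agent.MB
open FreeGroup hiding map_mul map_inv map_one

variable {α : Type} {T : Tg α} {A : FreeGroup α →* T.P} {E E' : Env α} {Q Q' : List (Sd α)}

open Classical in
/-- The variable sides with a nontrivial value. -/
noncomputable def TrivN (E : Env α) (Q : List (Sd α)) : List (Sd α) :=
  Q.filter fun s => decide (isC s = false ∧ E.val s ≠ 1)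

theorem Triv_mem {s : Sd α} : s ∈ TrivN E Q ↔ s ∈ Q ∧ isC s = false ∧ E.val s ≠ 1 := by
  simp [TrivN]

/-- The result of one step. -/
def TrivR (T : Tg α) (A : FreeGroup α →* T.P) (E : Env α) (Q : List (Sd α)) : Prop :=
  ∃ E' Q', Ok T A E' Q' ∧ Short E' Q' ∧ kc Q' ≤ kc Q ∧ (TrivN E' Q').length < (TrivN E Q).length

theorem Triv_sub (h : Ok T A E' Q') (hS : Short E Q)
    (hm : ∀ u ∈ Q', u ∈ Q ∧ (E'.val u = E.val u ∨ E'.val u = 1)) {s : Sd α} (hs : s ∈ TrivN E Q)
    (hs' : s ∉ TrivN E' Q') : TrivR T A E Q := by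
  have hn : Q'.Nodup := h.1.choose_spec.1
  refine ⟨E', Q', h, fun u hu => ?_, (hn.subperm fun u hu => (hm u hu).1).countP_le _, ?_⟩
  · rcases (hm u hu).2 with e | e
    · rw [e]; exact hS u (hm u hu).1
    · exact Or.inl e
  · have h1 : (s :: TrivN E' Q').Nodup := List.nodup_cons.2 ⟨hs', hn.filter _⟩
    refine (h1.subperm fun u hu => ?_).length_le
    rcases List.mem_cons.1 hu with rfl | hu
    · exact hs
    · obtain ⟨h2, h3, h4⟩ := Triv_mem.1 hu
      exact Triv_mem.2 ⟨(hm u h2).1, h3, ((hm u h2).2.resolve_right h4) ▸ h4⟩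

theorem Triv_cut (hM : MovSt) (hC : CutSt) (h : Ok T A E Q) (hS : Short E Q) {y : Sd α}
    {U V R : List (Sd α)} (r : Q ~r U ++ y :: V ++ R) (hy : isC y = false) (h1 : E.val y ≠ 1)
    (hb : bar y ∉ U ++ V) (hv : E.vl (U ++ y :: V) = 1) : TrivR T A E Q := by
  have hq : y ∈ Q := r.perm.mem_iff.2 (by simp)
  have h2 : bar y ∈ R := by
    have := r.perm.mem_iff.1 (h.1.choose_spec.2.1 y hq hy)
    simp only [List.mem_append, List.mem_cons, not_or] at this hb
    have := bar_ne y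
    tauto
  obtain ⟨B, C, rfl⟩ := List.append_of_mem h2
  obtain ⟨E', h3, h4, -, h5⟩ := hC α T A E y U V B C hy
    (by simpa [List.append_assoc] using (hM α T A).2.1 E _ _ r h)
  rw [hv] at h4
  refine Triv_sub h3 hS (fun u hu => ⟨r.perm.mem_iff.2 ?_, ?_⟩) (Triv_mem.2 ⟨hq, hy, h1⟩)
    fun e => (Triv_mem.1 e).2.2 h4
  · simp only [List.mem_append, List.mem_cons] at hu ⊢
    tauto
  · by_cases e : u.1 = y.1
    · rcases eq_or_bar e with rfl | rfl
      · exact Or.inr h4
      · exact Or.inr (by rw [val_bar, h4, inv_one])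
    · exact Or.inl (h5 u e).1

theorem Triv_step (hF : FindSt) (hM : MovSt) (hC : CutSt) (hR : RedSt) (hI : Iso T A)
    (h : Ok T A E Q) (hS : Short E Q) (hx : ∃ s ∈ Q, isC s = false ∧ E.val s ≠ 1) :
    TrivR T A E Q := by
  obtain ⟨B, s, U, s', C, rfl, h1, h2, h3, h4, h5⟩ :=
    (hF α (Sd α) E.val).2 (fun s => isC s = false) Q hS h.2 hx
  have h1' : E.vl U = 1 := h1
  have h3' : E.val s' ≠ 1 := fun e => h3 (by rwa [e, mul_one] at h2)
  have hU : ∀ y, isC y = false → E.val y ≠ 1 → bar y ∉ U := fun y hy e hu =>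
    e (inv_eq_one.1 ((val_bar E y).symm.trans (h5 _ hu hy)))
  have r : B ++ s :: U ++ s' :: C ~r s :: U ++ s' :: (C ++ B) := by
    simpa [List.append_assoc] using List.isRotated_append (l := B) (l' := s :: U ++ s' :: C)
  by_cases e : s' = bar s
  · have hs : isC s = false := h4.elim id fun h' => by rwa [e] at h'
    obtain ⟨E', Q', h6, h7⟩ := hR α T A E s s' B U C hI h h1' (Or.inl ⟨hs, e⟩)
    refine Triv_sub h6 hS (fun u hu => ⟨?_, Or.inl (h7 u hu).2⟩) (s := s)
      (Triv_mem.2 ⟨by simp, hs, h3⟩) fun hu => ?_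
    · have := (h7 u hu).1
      simp only [List.mem_append, List.mem_cons] at this ⊢
      tauto
    · have h8 := (h7 s (Triv_mem.1 hu).1).1
      have h9 := (List.nodup_cons.1 (r.perm.nodup_iff.1 h.1.choose_spec.1)).1
      simp only [List.mem_append, List.mem_cons, List.append_eq, not_or] at h8 h9
      tauto
  rcases h4 with hs | hs
  · refine Triv_cut hM hC h hS (y := s) (U := []) (V := U ++ [s']) (R := C ++ B)
      (by simpa [List.append_assoc] using r) hs h3 ?_ ?_
    · simpa using ⟨hU s hs h3, Ne.symm e⟩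
    · simpa [vl_cons, vl_append, vl_nil, h1'] using h2
  · refine Triv_cut hM hC h hS (y := s') (U := s :: U) (V := []) (R := C ++ B)
      (by simpa [List.append_assoc] using r) hs h3' ?_ ?_
    · simpa using ⟨fun e' => e (by rw [← e', bar_bar]), hU s' hs h3'⟩
    · simpa [vl_cons, vl_append, vl_nil, h1'] using h2

theorem trivSt (hF : FindSt) (hM : MovSt) (hC : CutSt) (hR : RedSt) : TrivSt := by
  intro α T A E Q hI h hS
  induction hn : (TrivN E Q).length using Nat.strong_induction_on generalizing E Q with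
  | _ n ih =>
  by_cases hx : ∃ s ∈ Q, isC s = false ∧ E.val s ≠ 1
  · obtain ⟨E₁, Q₁, h1, h2, h3, h4⟩ := Triv_step hF hM hC hR hI h hS hx
    obtain ⟨E₂, Q₂, h5, h6, h7⟩ := ih _ (hn ▸ h4) E₁ Q₁ h1 h2 rfl
    exact ⟨E₂, Q₂, h5, h6, h7.trans h3⟩
  · exact ⟨E, Q, h, fun s hs e => by_contra fun e' => hx ⟨s, hs, e, e'⟩, le_rfl⟩

end Pool.Agent.MN
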