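import Pool.Agent.Lib.MP_c86c76_al.N.St

/-!
A quadratic word with zero form is trivial.
-/

set_option autoImplicit false

namespace Pool.Agent.MN

open Pool.Agent.MB
open FreeGroup hiding map_mul map_inv map_one

variable {β : Type}

theorem Zero_congr {a a' : β → ℤ} {V : List (β × Bool)} (h : ∀ l ∈ V, a l.1 = a' l.1) :
    ch a (mk V) = ch a' (mk V) ∧ ∀ b, om a b (mk V) = om a' b (mk V) := by
  induction V with
  | nil => exact ⟨by rw [← one_eq_mk, ch_one, ch_one], fun b => by rw [← one_eq_mk, om_one, om_one]⟩
  | cons l V ih =>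
    obtain ⟨i1, i2⟩ := ih fun u hu => h u (List.mem_cons_of_mem _ hu)
    have e := h l List.mem_cons_self
    refine ⟨?_, fun b => ?_⟩
    · rw [Ess_cons, ch_mul, ch_mul, ch_lt, ch_lt, i1, e]
    · rw [Ess_cons, om_mul, om_mul, om_lt, om_lt, ch_lt, ch_lt, i2, e]

theorem Zero_van {a : β → ℤ} {V : List (β × Bool)} (h : ∀ l ∈ V, a l.1 = 0) :
    ch a (mk V) = 0 ∧ ∀ b, om a b (mk V) = 0 := by
  obtain ⟨i1, i2⟩ := Zero_congr (a' := 0) h
  exact ⟨by rw [i1, ch_zero], fun b => by rw [i2, om_zero_left]⟩

theorem Zero_sum (a : β → ℤ) (V : List (β × Bool)) :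
    ch a (mk V) = (V.map fun l => ch a (lt l)).sum := by
  induction V with
  | nil => rw [← one_eq_mk, ch_one]; rfl
  | cons l V ih => rw [Ess_cons, ch_mul, ih]; rfl

theorem Zero_null {V : List (β × Bool)} (hN : V.Nodup) (hC : ∀ l ∈ V, bar l ∈ V) :
    Null (mk V) := by
  intro a
  have hinj : Function.Injective (bar : β × Bool → β × Bool) := fun u v e => by
    rw [← bar_bar u, e, bar_bar]
  have hp : (V.map bar).Perm V := by
    refine (List.perm_ext_iff_of_nodup (hN.map hinj) hN).2 fun u => ⟨fun hu => ?_, fun hu => ?_⟩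
    · obtain ⟨v, hv, rfl⟩ := List.mem_map.1 hu
      exact hC v hv
    · exact List.mem_map.2 ⟨bar u, hC u hu, bar_bar u⟩
  have h1 := (hp.map fun l => ch a (lt l)).sum_eq
  rw [List.map_map] at h1
  have h2 : (V.map ((fun l => ch a (lt l)) ∘ bar)).sum = -(V.map fun l => ch a (lt l)).sum := by
    rw [List.sum_neg, List.map_map]
    refine congrArg List.sum (List.map_congr_left fun l _ => ?_)
    simp only [Function.comp_apply, Ess_lt_bar, ch_inv]
  rw [Zero_sum]
  omega

open Classical in
theorem Zero_unit (y : β × Bool) : ch (fun x => if x = y.1 then 1 else 0) (lt y) ≠ 0 := by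
  rw [ch_lt]
  obtain ⟨x, _ | _⟩ := y <;> simp

theorem Zero_split (y : β × Bool) (B C : List (β × Bool)) :
    mk (y :: (B ++ bar y :: C)) = lt y * mk B * (lt y)⁻¹ * mk C := by
  rw [Ess_cons, ← mul_mk, Ess_cons, Ess_lt_bar, mul_assoc, mul_assoc]

theorem Zero_closed {B : List (β × Bool)} (hN : B.Nodup) (h : Null (mk B)) :
    ∀ u ∈ B, bar u ∈ B := by
  classical
  intro u hu
  by_contra hb
  obtain ⟨B1, B2, rfl⟩ := List.append_of_mem hu
  have hu' : u ∉ B1 ∧ u ∉ B2 := by
    have := List.nodup_cons.1 (List.nodup_middle.1 hN)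
    simpa only [List.mem_append, not_or] using this.1
  have hv : ∀ l, l ∈ B1 ∨ l ∈ B2 → (fun x => if x = u.1 then (1 : ℤ) else 0) l.1 = 0 := by
    intro l hl
    refine if_neg fun e => ?_
    rcases eq_or_bar e with rfl | rfl
    · exact hl.elim hu'.1 hu'.2
    · exact hb (by rcases hl with hl | hl <;> simp [hl])
  have h1 := h fun x => if x = u.1 then 1 else 0
  rw [← mul_mk, Ess_cons, ch_mul, ch_mul, (Zero_van fun l hl => hv l (Or.inl hl)).1,
    (Zero_van fun l hl => hv l (Or.inr hl)).1, zero_add, add_zero] at h1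
  exact Zero_unit u h1

theorem Zero_triv (n : ℕ) : ∀ V : List (β × Bool), V.length ≤ n → V.Nodup →
    (∀ l ∈ V, bar l ∈ V) → (∀ a b, om a b (mk V) = 0) → mk V = 1 := by
  classical
  induction n with
  | zero => intro V hV _ _ _; rw [List.length_eq_zero_iff.1 (Nat.le_zero.1 hV), one_eq_mk]
  | succ n ih =>
    intro V hV hN hC h
    cases V with
    | nil => exact one_eq_mk.symm
    | cons y R =>
      obtain ⟨B, C, rfl⟩ := List.append_of_mem
        ((List.mem_cons.1 (hC y List.mem_cons_self)).resolve_left (bar_ne y))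
      obtain ⟨hy, hN'⟩ := List.nodup_cons.1 hN
      obtain ⟨hy', hN''⟩ := List.nodup_cons.1 (List.nodup_middle.1 hN')
      obtain ⟨hB, hCn, hd⟩ := List.nodup_append.1 hN''
      simp only [List.mem_append, List.mem_cons, not_or] at hy hy'
      have hv : ∀ l, l ∈ B ∨ l ∈ C → (fun x => if x = y.1 then (1 : ℤ) else 0) l.1 = 0 := by
        intro l hl
        refine if_neg fun e => ?_
        rcases eq_or_bar e with rfl | rfl
        · exact hl.elim hy.1 hy.2.2
        · exact hl.elim hy'.1 hy'.2
      have hnB : Null (mk B) := by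
        intro b
        have h1 := h (fun x => if x = y.1 then 1 else 0) b
        obtain ⟨b1, b2⟩ := Zero_van (a := fun x => if x = y.1 then 1 else 0)
          fun l hl => hv l (Or.inl hl)
        obtain ⟨_, c2⟩ := Zero_van (a := fun x => if x = y.1 then 1 else 0)
          fun l hl => hv l (Or.inr hl)
        rw [Zero_split] at h1
        simp only [om_mul, ch_mul, om_inv, ch_inv, b1, b2, c2] at h1
        refine (mul_eq_zero.1 (?_ : ch _ (lt y) * _ = 0)).resolve_left (Zero_unit y)
        linear_combination h1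
      have hcB := Zero_closed hB hnB
      have hcC : ∀ u ∈ C, bar u ∈ C := by
        intro u hu
        have h1 := hC u (by simp [hu])
        simp only [List.mem_append, List.mem_cons] at h1
        rcases h1 with e | e | e | e
        · exact absurd (by rw [← e, bar_bar]; exact hu) hy'.2
        · exact absurd rfl (hd _ (bar_bar u ▸ hcB _ e) _ hu)
        · exact absurd (by rw [← bar_bar y, ← e, bar_bar]; exact hu) hy.2.2
        · exact e
      have hs : ∀ a b, om a b (mk B) + om a b (mk C) = 0 := by
        intro a b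
        have h1 := h a b
        rw [Zero_split] at h1
        simp only [om_mul, ch_mul, om_inv, ch_inv, hnB a, hnB b] at h1
        linear_combination h1
      have hl : B.length ≤ n ∧ C.length ≤ n := by
        simp only [List.length_cons, List.length_append] at hV
        omega
      have eB : mk B = 1 := by
        refine ih B hl.1 hB hcB fun a b => ?_
        have h1 := hs (fun x => if ∃ v ∈ B, v.1 = x then a x else 0) b
        rw [(Zero_congr (a' := a) fun l hl => if_pos ⟨l, hl, rfl⟩).2, (Zero_van (V := C) ?_).2,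
          add_zero] at h1
        · exact h1
        · intro l hl
          refine if_neg ?_
          rintro ⟨v, hv, e⟩
          rcases eq_or_bar e.symm with rfl | rfl
          · exact hd _ hv _ hl rfl
          · exact hd _ (hcB _ hv) _ hl rfl
      have eC : mk C = 1 := by
        refine ih C hl.2 hCn hcC fun a b => ?_
        have h1 := hs a b
        rwa [eB, om_one, zero_add] at h1
      rw [Zero_split, eB, eC, mul_one, mul_one, mul_inv_cancel]

theorem zeroSt : ZeroSt := fun _ V hN hC =>
  ⟨Zero_null hN hC, Zero_triv V.length V le_rfl hN hC⟩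

end Pool.Agent.MN
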