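import Pool.Agent.Lib.MP_c86c76_al.N.Lift
import Pool.Agent.Lib.MP_c86c76_al.N.Find
import Pool.Agent.Lib.MP_c86c76_al.N.Nx
import Pool.Agent.Lib.MP_c86c76_al.N.Mov
import Pool.Agent.Lib.MP_c86c76_al.N.Cut
import Pool.Agent.Lib.MP_c86c76_al.N.Zero
import Pool.Agent.Lib.MP_c86c76_al.N.Rank
import Pool.Agent.Lib.MP_c86c76_al.N.Drop
import Pool.Agent.Lib.MP_c86c76_al.N.Red
import Pool.Agent.Lib.MP_c86c76_al.N.Short
import Pool.Agent.Lib.MP_c86c76_al.N.Triv
import Pool.Agent.Lib.MP_c86c76_al.N.Ch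
import Pool.Agent.Lib.MP_c86c76_al.N.Back
import Pool.Agent.Lib.MP_c86c76_al.N.Sgn
import Pool.Agent.Lib.MP_c86c76_al.N.Mix
import Pool.Agent.Lib.MP_c86c76_al.N.Init
import Pool.Agent.Lib.MP_c86c76_al.N.Surj

/-!
Nielsen's theorem: automorphisms of a surface group lift to the free group.
-/

set_option autoImplicit false

namespace Pool.Agent.MN

open Pool.Agent.MB

theorem movA : MovSt := movSt nxSt

theorem redA : RedSt := redSt movA cutSt (dropSt zeroSt rankSt)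

theorem liftA : LiftSt := liftSt (initSt movA) (shortSt nxSt movA cutSt)
  (trivSt findSt movA cutSt redA) redA (backSt nxSt movA cutSt (chSt nxSt))
  (mixSt nxSt movA rankSt (chSt nxSt) (sgnSt findSt) (lastSt movA (chSt nxSt))) (endSt rankSt)

/-- Nielsen's theorem. -/
theorem nielsen {α : Type} [Finite α] (c : Ctx α) (hne : c.W ≠ [])
    (uni : ∀ (a : α → ℤ) (d : ℤ), (∀ b, d ∣ om a b c.r) → ∀ x, d ∣ a x)
    (σ : MulAut (FreeGroup α ⧸ Subgroup.normalClosure {c.r})) :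
    ∃ (φ : MulAut (FreeGroup α)) (u : FreeGroup α), (φ c.r = c.r ∨ φ c.r = c.r⁻¹) ∧
      ∀ w : FreeGroup α, (QuotientGroup.mk (φ w) : FreeGroup α ⧸ Subgroup.normalClosure {c.r}) =
        QuotientGroup.mk u * σ (QuotientGroup.mk w) * (QuotientGroup.mk u)⁻¹ :=
  nielsen_of liftA surjSt hopfSt tgSt c hne uni σ

end Pool.Agent.MN
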