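import Pool.Agent.Lib.MP_c86c76_al.N.St

/-!
Turning around a vertex of a polygon.
-/

namespace Pool.Agent.MN

open Pool.Agent.MB
open FreeGroup hiding map_mul map_inv map_one

theorem chSt (hN : NxSt) : ChSt := by
  classical
  intro α Q hd hc
  obtain ⟨-, n2, n3, n4, n5, -, n7, -⟩ := hN (Sd α)
  have ne : ∀ {u t y : Sd α}, Nx Q u t → isC t = true → Nx Q u y → isC y = false → False :=
    fun h e h' e' => by rw [n4 Q _ _ _ hd h h', e'] at e; cases e
  have h1 : ∀ k k' u t t', Ch Q k u t → Ch Q k' u t' → k = k' ∧ t = t' := by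
    intro k
    induction k with
    | zero =>
      rintro (_ | k') u t t' h h'
      · exact ⟨rfl, n4 Q _ _ _ hd h.1 h'.1⟩
      · obtain ⟨y, a, b, -⟩ := h'
        exact (ne h.1 h.2 a b).elim
    | succ k ih =>
      rintro (_ | k') u t t' ⟨y, a, b, c⟩ h'
      · exact (ne h'.1 h'.2 a b).elim
      · obtain ⟨y', a', -, c'⟩ := h'
        obtain rfl := n4 Q _ _ _ hd a a'
        exact (ih _ _ _ _ c c').imp_left (congrArg _)
  have h3 : ∀ c ∈ Q, 2 ≤ Q.length → isC c = true → ∃ k t, Ch Q k c t := by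
    intro c hQ hl e
    by_contra h0
    have : ∀ u, ∃ v, u ∈ Q → Nx Q u v := fun u => by
      by_cases h : u ∈ Q
      · exact (n3 Q u hl h).imp fun _ h _ => h
      · exact ⟨u, fun h' => absurd h' h⟩
    choose f hf using this
    let Z : Set (Sd α) := {v | v ∈ Q ∧ ¬ ∃ k t, Ch Q k v t}
    have hv : ∀ v ∈ Z, isC (f v) = false := fun v h =>
      Bool.eq_false_iff.2 fun e' => h.2 ⟨0, f v, hf v h.1, e'⟩
    have hb := ((List.finite_toSet Q).subset fun v (h : v ∈ Z) => h.1).injOn_iff_bijOn_of_mapsTo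
      (f := fun v => bar (f v)) fun v h => ⟨hc _ (n2 Q _ _ (hf v h.1)).2 (hv v h),
        fun ⟨k, t, a⟩ => h.2 ⟨k + 1, t, f v, hf v h.1, hv v h, a⟩⟩
    obtain ⟨v, h, e'⟩ := (hb.1 fun u h v h' e' => n5 Q _ _ _ hd (hf u h.1) (by
      rw [← bar_bar (f u), show bar (f u) = bar (f v) from e', bar_bar]
      exact hf v h'.1)).surjOn ⟨hQ, h0⟩
    rw [← e', isC_bar, hv v h] at e
    cases e
  refine ⟨h1, fun k => ?_, h3, fun T E k u t hp => ?_, fun hl hb =>
    ⟨fun u => decide (¬ ∃ k t, Ch Q k u t ∧ t.2 = false), fun c hQ e => ?_, fun u v h => ?_⟩⟩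
  · induction k with
    | zero => exact fun u t h => ⟨(n2 Q _ _ h.1).2, h.2⟩
    | succ k ih => exact fun u t ⟨_, _, _, h⟩ => ih _ _ h
  · induction k generalizing u with
    | zero => exact fun h => n7 _ _ _ Q _ _ hp h.1
    | succ k ih => exact fun ⟨y, a, _, h⟩ => by rw [n7 _ _ _ Q _ _ hp a, ← ih _ h, se_bar]
  · cases e' : c.2
    · obtain ⟨k, t, h⟩ := h3 c hQ hl e
      exact decide_eq_false fun h' => h' ⟨k, t, h, (hb c hQ e k t h).trans e'⟩
    · exact decide_eq_true fun ⟨k, t, h, h'⟩ => by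
        rw [hb c hQ e k t h, e'] at h'
        cases h'
  · cases e : isC v
    · refine decide_eq_decide.2 (not_congr ⟨?_, fun ⟨k, t, a, b⟩ => ⟨k + 1, t, ⟨v, h, e, a⟩, b⟩⟩)
      rintro ⟨_ | k, t, a, b⟩
      · exact (ne a.1 a.2 h e).elim
      · obtain ⟨y, a', -, c⟩ := a
        obtain rfl := n4 Q _ _ _ hd a' h
        exact ⟨k, t, c, b⟩
    · have h0 : Ch Q 0 u v := ⟨h, e⟩
      cases e' : v.2
      · exact decide_eq_false fun h' => h' ⟨0, v, h0, e'⟩
      · exact decide_eq_true fun ⟨k, t, a, b⟩ => by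
          rw [(h1 _ _ _ _ _ a h0).2, e'] at b
          cases b

theorem lastSt (hM : MovSt) (hC : ChSt) : LastSt := by
  intro α T A E Q ho hb c hQ e
  have hl := (hM α T A).2.2.2.2.2.2 E Q c ho hQ
  obtain ⟨⟨a, hd, hc, hp, -⟩, -⟩ := ho
  obtain ⟨-, h2, h3, h4, -⟩ := hC α Q hd hc
  obtain ⟨j, l, b, rfl⟩ := isC_true e
  have key : ∀ l, (∃ j, (Sum.inr (j, l), b) ∈ Q) → ∃ l', (∃ j, (Sum.inr (j, l'), b) ∈ Q) ∧
      cond b (T.nx l) l = cond b l' (T.nx l') := by
    rintro l ⟨j, h⟩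
    obtain ⟨k, t, a'⟩ := h3 _ h hl rfl
    have e1 := h4 T E k _ t ⟨a, hp⟩ a'
    have e2 := hb _ h rfl k t a'
    obtain ⟨m, e3⟩ := h2 k _ t a'
    obtain ⟨j', l', b', rfl⟩ := isC_true e3
    obtain rfl : b' = b := e2
    exact ⟨l', ⟨j', m⟩, by cases b' <;> exact e1⟩
  cases b
  · obtain ⟨k, rfl⟩ := T.tr T.la l
    suffices h : ∀ k : ℕ, (∃ j, (Sum.inr (j, T.nx^[k] T.la), false) ∈ Q) →
        ∃ j, (Sum.inr (j, T.la), false) ∈ Q from h k ⟨j, hQ⟩
    intro k
    induction k with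
    | zero => exact id
    | succ k ih =>
      intro h
      obtain ⟨l', h', e'⟩ := key _ h
      rw [Function.iterate_succ_apply'] at e'
      exact ih (T.inj e' ▸ h')
  · obtain ⟨k, e'⟩ := T.tr l T.la
    rw [← e']
    clear e'
    induction k with
    | zero => exact ⟨j, hQ⟩
    | succ k ih =>
      obtain ⟨l', h', e'⟩ := key _ ih
      rw [Function.iterate_succ_apply', show T.nx _ = l' from e']
      exact h'

end Pool.Agent.MN
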