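import Pool.Agent.Lib.MP_c86c76_al.N.Om

/-!
Polygons with variable and constant sides: definitions and basic facts for the lifting of
automorphisms of a surface group to the free group.
-/

set_option autoImplicit false

namespace Pool.Agent.MN

open Pool.Agent.MB
open FreeGroup hiding map_mul map_inv map_one

section Lists

variable {σ S : Type}

/-- The sides of `L` fit together from the state `a` to the state `b`. -/
def Pa (ss se : σ → S) : S → List σ → S → Prop
  | a, [], b => a = b
  | a, s :: L, b => ss s = a ∧ Pa ss se (se s) L b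

theorem Pa_nil {ss se : σ → S} {a b : S} : Pa ss se a [] b ↔ a = b := Iff.rfl

theorem Pa_cons {ss se : σ → S} {a b : S} {s : σ} {L : List σ} :
    Pa ss se a (s :: L) b ↔ ss s = a ∧ Pa ss se (se s) L b := Iff.rfl

theorem Pa_append {ss se : σ → S} {a b : S} {L M : List σ} :
    Pa ss se a (L ++ M) b ↔ ∃ m, Pa ss se a L m ∧ Pa ss se m M b := by
  induction L generalizing a with
  | nil => simp [Pa_nil]
  | cons s L ih => simp only [List.cons_append, Pa_cons, ih, and_assoc, exists_and_left]

theorem Pa_unique {ss se : σ → S} {a b b' : S} {L : List σ} (h : Pa ss se a L b)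
    (h' : Pa ss se a L b') : b = b' := by
  induction L generalizing a with
  | nil => exact h.symm.trans h'
  | cons s L ih => exact ih h.2 h'.2

theorem Pa_congr {ss se ss' se' : σ → S} {a b : S} {L : List σ}
    (e : ∀ s ∈ L, ss' s = ss s ∧ se' s = se s) (h : Pa ss se a L b) : Pa ss' se' a L b := by
  induction L generalizing a with
  | nil => exact h
  | cons s L ih =>
    obtain ⟨e1, e2⟩ := e s List.mem_cons_self
    exact ⟨e1.trans h.1, e2 ▸ ih (fun u hu => e u (List.mem_cons_of_mem _ hu)) h.2⟩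

/-- Telescoping. -/
theorem Pa_tele {G : Type} [Group G] {ss se : σ → S} {a b : S} {L : List σ} (κ : S → G)
    (v : σ → G) (h : Pa ss se a L b) :
    (L.map fun s => κ (ss s) * v s * (κ (se s))⁻¹).prod = κ a * (L.map v).prod * (κ b)⁻¹ := by
  induction L generalizing a with
  | nil => rw [Pa_nil.1 h]; simp
  | cons s L ih =>
    rw [List.map_cons, List.prod_cons, ih h.2, List.map_cons, List.prod_cons, h.1]
    group

/-- `v` is the cyclic successor of `u`. -/
def Nx (Q : List σ) (u v : σ) : Prop := ∃ R, Q ~r u :: v :: R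

end Lists

/-- Names of sides: variables, and constants with their letter. -/
abbrev Nm (α : Type) : Type := ℕ ⊕ ℕ × (α × Bool)

/-- Sides. -/
abbrev Sd (α : Type) : Type := Nm α × Bool

/-- The free group on the variables and the letters. -/
abbrev DD (α : Type) : Type := FreeGroup (ℕ ⊕ α)

/-- The target: a full word with its cyclic successor map and its initial segments. -/
structure Tg (α : Type) : Type where
  W : List (α × Bool)
  nx : α × Bool → α × Bool
  pre : α × Bool → FreeGroup α
  la : α × Bool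
  h0 : α × Bool
  nd : W.Nodup
  nul : Null (mk W)
  uni : ∀ (a : α → ℤ) (d : ℤ), (∀ b, d ∣ om a b (mk W)) → ∀ x, d ∣ a x
  inj : Function.Injective nx
  tr : ∀ l l', ∃ k : ℕ, nx^[k] l = l'
  te1 : ∀ l, l ≠ la → pre l * lt l * (pre (nx l))⁻¹ = 1
  te2 : pre la * lt la * (pre (nx la))⁻¹ = mk W
  pa : Pa id nx h0 W h0
  pre0 : pre h0 = 1

/-- Values and end states of the variables. -/
structure Env (α : Type) : Type where
  th : ℕ → FreeGroup α
  st : ℕ → α × Bool
  en : ℕ → α × Bool

variable {α : Type}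

/-- The relator. -/
def Tg.r (T : Tg α) : FreeGroup α := FreeGroup.mk T.W

/-- The one-relator group. -/
abbrev Tg.P (T : Tg α) : Type := FreeGroup α ⧸ Subgroup.normalClosure {T.r}

/-- The projection. -/
def Tg.pj (T : Tg α) : FreeGroup α →* T.P := QuotientGroup.mk' _

/-- Constant sides. -/
def isC (s : Sd α) : Bool := s.1.isRight

/-- The number of constant sides. -/
def kc (Q : List (Sd α)) : ℕ := Q.countP isC

/-- The value of a name. -/
def Env.nv (E : Env α) : Nm α → FreeGroup α := Sum.elim E.th fun k => lt k.2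

/-- The value of a side. -/
def Env.val (E : Env α) (s : Sd α) : FreeGroup α := cond s.2 (E.nv s.1) (E.nv s.1)⁻¹

/-- The value of a list of sides. -/
def Env.vl (E : Env α) (L : List (Sd α)) : FreeGroup α := (L.map E.val).prod

/-- The state at the start of a side. -/
def ss (T : Tg α) (E : Env α) (s : Sd α) : α × Bool :=
  cond s.2 (Sum.elim E.st (fun k => k.2) s.1) (Sum.elim E.en (fun k => T.nx k.2) s.1)

/-- The state at the end of a side. -/
def se (T : Tg α) (E : Env α) (s : Sd α) : α × Bool := ss T E (bar s)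

/-- Paths of sides. -/
abbrev Pt (T : Tg α) (E : Env α) : α × Bool → List (Sd α) → α × Bool → Prop :=
  Pa (ss T E) (se T E)

/-- A side with the constants killed. -/
def kv (s : Sd α) : DD α := Sum.elim (fun i => lt (Sum.inl i, s.2)) (fun _ => 1) s.1

/-- A list of sides with the constants killed. -/
def kl (L : List (Sd α)) : DD α := (L.map kv).prod

/-- The value of a side as a loop. -/
def lp (T : Tg α) (E : Env α) (s : Sd α) : FreeGroup α :=
  T.pre (ss T E s) * E.val s * (T.pre (se T E s))⁻¹

/-- The values of the variables as loops. -/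
def tt (T : Tg α) (E : Env α) : DD α →* FreeGroup α :=
  FreeGroup.lift (Sum.elim (fun i => lp T E (Sum.inl i, true)) of)

/-- The variables occur in pairs. -/
def Clo (L : List (Sd α)) : Prop := ∀ s ∈ L, isC s = false → bar s ∈ L

/-- The polygon carries the homomorphism `A`. -/
def Inv (T : Tg α) (A : FreeGroup α →* T.P) (E : Env α) (Q : List (Sd α)) : Prop :=
  ∃ lam : FreeGroup α →* DD α, IsConj (lam T.r) (kl Q) ∧ ∀ w, T.pj (tt T E (lam w)) = A w

/-- Polygons with any value. -/
def Ok0 (T : Tg α) (A : FreeGroup α →* T.P) (E : Env α) (a : α × Bool) (Q : List (Sd α)) : Prop :=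
  Q.Nodup ∧ Clo Q ∧ Pt T E a Q a ∧ Inv T A E Q

/-- Polygons. -/
def Ok (T : Tg α) (A : FreeGroup α →* T.P) (E : Env α) (Q : List (Sd α)) : Prop :=
  (∃ a, Ok0 T A E a Q) ∧ E.vl Q = 1

/-- `A` is onto on characters. -/
def Iso (T : Tg α) (A : FreeGroup α →* T.P) : Prop :=
  ∀ e : α → ℤ, ∃ a : α → ℤ, ∀ w u, T.pj u = A w → ch a u = ch e w

/-- The same for an endomorphism of the free group. -/
def Sur (ψ : FreeGroup α →* FreeGroup α) : Prop :=
  ∀ e : α → ℤ, ∃ a : α → ℤ, ∀ w, ch a (ψ w) = ch e w

/-- All sides are trivial or letters. -/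
def Short (E : Env α) (Q : List (Sd α)) : Prop := ∀ s ∈ Q, E.val s = 1 ∨ ∃ l, E.val s = lt l

/-- All variables are trivial. -/
def Triv (E : Env α) (Q : List (Sd α)) : Prop := ∀ s ∈ Q, isC s = false → E.val s = 1

/-- Two sides that cancel. -/
def Pair (s s' : Sd α) : Prop := (isC s = false ∧ s' = bar s) ∨
  ∃ j j' l b, s = (Sum.inr (j, l), b) ∧ s' = (Sum.inr (j', l), !b)

/-- Turning `k` times around the end of `u` one reaches the constant `t`. -/
def Ch (Q : List (Sd α)) : ℕ → Sd α → Sd α → Prop
  | 0, u, t => Nx Q u t ∧ isC t = true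
  | k + 1, u, t => ∃ y, Nx Q u y ∧ isC y = false ∧ Ch Q k (bar y) t

/-- No constant is followed on the boundary by a constant of the other sign. -/
def NoBack (Q : List (Sd α)) : Prop :=
  ∀ c ∈ Q, isC c = true → ∀ k t, Ch Q k c t → t.2 = c.2

/-- Constants that cancel have the same sign. -/
def NoOpp (E : Env α) (Q : List (Sd α)) : Prop :=
  ∀ A s U s' B, Q = A ++ s :: U ++ s' :: B → E.vl U = 1 → isC s = true → isC s' = true →
    E.val s * E.val s' = 1 → s.2 = s'.2

/-- The copy of the free group with the sign `b`. -/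
def io (b : Bool) : FreeGroup α →* FreeGroup (α × Bool) := FreeGroup.map fun x => (x, b)

theorem bar_bar {β : Type} (l : β × Bool) : bar (bar l) = l := by simp [bar]

theorem bar_ne {β : Type} (l : β × Bool) : bar l ≠ l := by
  obtain ⟨x, _ | _⟩ := l <;> simp [bar]

theorem isC_bar (s : Sd α) : isC (bar s) = isC s := rfl

theorem isC_false {s : Sd α} (h : isC s = false) : ∃ i b, s = (Sum.inl i, b) := by
  obtain ⟨i | k, b⟩ := s
  · exact ⟨i, b, rfl⟩
  · cases h

theorem isC_true {s : Sd α} (h : isC s = true) : ∃ j l b, s = (Sum.inr (j, l), b) := by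
  obtain ⟨i | ⟨j, l⟩, b⟩ := s
  · cases h
  · exact ⟨j, l, b, rfl⟩

theorem eq_or_bar {β : Type} {s u : β × Bool} (h : s.1 = u.1) : s = u ∨ s = bar u := by
  obtain ⟨x, b⟩ := s
  obtain ⟨y, c⟩ := u
  cases h
  cases b <;> cases c <;> simp [bar]

theorem val_bar (E : Env α) (s : Sd α) : E.val (bar s) = (E.val s)⁻¹ := by
  obtain ⟨x, _ | _⟩ := s
  · exact (inv_inv _).symm
  · rfl

theorem ss_bar (T : Tg α) (E : Env α) (s : Sd α) : ss T E (bar s) = se T E s := rfl

theorem se_bar (T : Tg α) (E : Env α) (s : Sd α) : se T E (bar s) = ss T E s := by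
  rw [se, bar_bar]

theorem lp_bar (T : Tg α) (E : Env α) (s : Sd α) : lp T E (bar s) = (lp T E s)⁻¹ := by
  rw [lp, lp, val_bar, ss_bar, se_bar]; group

theorem kv_bar (s : Sd α) : kv (bar s) = (kv s)⁻¹ := by
  obtain ⟨i | k, b⟩ := s
  · exact Ess_lt_bar (Sum.inl i, b)
  · exact inv_one.symm

theorem kv_C {s : Sd α} (h : isC s = true) : kv s = 1 := by
  obtain ⟨j, l, b, rfl⟩ := isC_true h
  rfl

theorem val_C (E : Env α) (j : ℕ) (l : α × Bool) (b : Bool) :
    E.val (Sum.inr (j, l), b) = lt (cond b l (bar l)) := by cases b <;> rfl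

theorem lt_inj {l u : α × Bool} (h : lt l = lt u) : l = u := by
  classical
  have := congrArg toWord h
  rw [lt, lt, toWord_mk, toWord_mk] at this
  exact List.singleton_injective this

theorem lt_ne_one (l : α × Bool) : lt l ≠ 1 := by
  classical
  intro h
  have := congrArg toWord h
  rw [lt, toWord_mk, toWord_one] at this
  cases this

theorem vl_nil (E : Env α) : E.vl [] = 1 := rfl

theorem vl_cons (E : Env α) (s : Sd α) (L : List (Sd α)) : E.vl (s :: L) = E.val s * E.vl L := rfl

theorem vl_append (E : Env α) (L M : List (Sd α)) : E.vl (L ++ M) = E.vl L * E.vl M := by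
  rw [Env.vl, List.map_append, List.prod_append]; rfl

theorem vl_congr {E E' : Env α} {L : List (Sd α)} (h : ∀ s ∈ L, E'.val s = E.val s) :
    E'.vl L = E.vl L := congrArg List.prod (List.map_congr_left h)

theorem kl_nil : kl ([] : List (Sd α)) = 1 := rfl

theorem kl_cons (s : Sd α) (L : List (Sd α)) : kl (s :: L) = kv s * kl L := rfl

theorem kl_append (L M : List (Sd α)) : kl (L ++ M) = kl L * kl M := by
  rw [kl, List.map_append, List.prod_append]; rfl

theorem tt_inr (T : Tg α) (E : Env α) (w : FreeGroup α) :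
    tt T E (FreeGroup.map Sum.inr w) = w := by
  have : (tt T E).comp (FreeGroup.map Sum.inr) = MonoidHom.id _ := by
    ext x; simp [tt]
  exact DFunLike.congr_fun this w

theorem tt_kv (T : Tg α) (E : Env α) (s : Sd α) : tt T E (kv s) = cond (isC s) 1 (lp T E s) := by
  obtain ⟨i | k, b⟩ := s
  · have : tt T E (kv (Sum.inl i, true)) = lp T E (Sum.inl i, true) := lift_apply_of
    cases b
    · change tt T E (kv (bar (Sum.inl i, true))) = lp T E (bar (Sum.inl i, true))
      rw [kv_bar, map_inv, this, lp_bar]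
    · exact this
  · exact map_one _

theorem tt_kl (T : Tg α) (E : Env α) (L : List (Sd α)) :
    tt T E (kl L) = (L.map fun s => cond (isC s) 1 (lp T E s)).prod := by
  rw [kl, map_list_prod, List.map_map]
  exact congrArg List.prod (List.map_congr_left fun s _ => tt_kv T E s)

/-- The loop of a constant. -/
theorem lp_C (T : Tg α) (E : Env α) (j : ℕ) (l : α × Bool) (b : Bool) :
    (l ≠ T.la → lp T E (Sum.inr (j, l), b) = 1) ∧
    (l = T.la → lp T E (Sum.inr (j, l), b) = cond b T.r T.r⁻¹) := by
  have h : (l ≠ T.la → lp T E (Sum.inr (j, l), true) = 1) ∧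
      (l = T.la → lp T E (Sum.inr (j, l), true) = T.r) := ⟨T.te1 l, fun h => h ▸ T.te2⟩
  cases b
  · have e : lp T E (Sum.inr (j, l), false) = (lp T E (Sum.inr (j, l), true))⁻¹ :=
      lp_bar T E (Sum.inr (j, l), true)
    exact ⟨fun h' => by rw [e, h.1 h', inv_one], fun h' => by rw [e, h.2 h']; rfl⟩
  · exact h

theorem pj_r (T : Tg α) : T.pj T.r = 1 :=
  (QuotientGroup.eq_one_iff _).2 (Subgroup.subset_normalClosure rfl)

theorem pj_eq_one (T : Tg α) (w : FreeGroup α) :
    T.pj w = 1 ↔ w ∈ Subgroup.normalClosure {T.r} := QuotientGroup.eq_one_iff _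

theorem pj_kv (T : Tg α) (E : Env α) (s : Sd α) : T.pj (tt T E (kv s)) = T.pj (lp T E s) := by
  rw [tt_kv]
  cases h : isC s
  · rfl
  · obtain ⟨j, l, b, rfl⟩ := isC_true h
    by_cases e : l = T.la
    · rw [(lp_C T E j l b).2 e]
      cases b <;> simp [pj_r]
    · rw [(lp_C T E j l b).1 e]; rfl

theorem lp_tele {T : Tg α} {E : Env α} {a b : α × Bool} {L : List (Sd α)} (h : Pt T E a L b) :
    (L.map (lp T E)).prod = T.pre a * E.vl L * (T.pre b)⁻¹ := Pa_tele T.pre E.val h

theorem pj_kl {T : Tg α} {E : Env α} {a b : α × Bool} {L : List (Sd α)} (h : Pt T E a L b) :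
    T.pj (tt T E (kl L)) = T.pj (T.pre a * E.vl L * (T.pre b)⁻¹) := by
  rw [← lp_tele h, kl, map_list_prod, map_list_prod, map_list_prod, List.map_map, List.map_map,
    List.map_map]
  exact congrArg List.prod (List.map_congr_left fun s _ => pj_kv T E s)

/-- Change of variables. -/
theorem Inv.sim {T : Tg α} {A : FreeGroup α →* T.P} {E E' : Env α} {Q Q' : List (Sd α)}
    (h : Inv T A E Q) (μ : DD α →* DD α) (h1 : IsConj (μ (kl Q)) (kl Q'))
    (h2 : ∀ x, T.pj (tt T E' (μ (of x))) = T.pj (tt T E (of x))) : Inv T A E' Q' := by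
  obtain ⟨lam, i1, i2⟩ := h
  have : T.pj.comp ((tt T E').comp μ) = T.pj.comp (tt T E) := FreeGroup.ext_hom _ _ h2
  exact ⟨μ.comp lam, (μ.map_isConj i1).trans h1, fun w =>
    (DFunLike.congr_fun this (lam w)).trans (i2 w)⟩

theorem Iso.sur {T : Tg α} {A : FreeGroup α →* T.P} (h : Iso T A) (ψ : FreeGroup α →* FreeGroup α)
    (e : ∀ w, T.pj (ψ w) = A w) : Sur ψ := fun x =>
  (h x).imp fun _ ha w => ha w _ (e w)

end Pool.Agent.MN
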