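import Pool.Agent.Lib.MP_c86c76_al.N.St

/-!
The lifting theorem from its steps.
-/

set_option autoImplicit false

namespace Pool.Agent.MN

open Pool.Agent.MB
open FreeGroup hiding map_mul map_inv map_one

theorem liftSt (hI : InitSt) (hS : ShortSt) (hT : TrivSt) (hR : RedSt) (hB : BackSt) (hM : MixSt)
    (hE : EndSt) : LiftSt := by
  intro α _ T A hW h1 hi
  obtain ⟨E, Q, h⟩ := hI α T A hW h1
  induction hn : kc Q using Nat.strong_induction_on generalizing E Q with
  | _ n ih =>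
    obtain ⟨E1, Q1, h1, s1, k1⟩ := hS α T A E Q h
    obtain ⟨E2, Q2, h2, t2, k2⟩ := hT α T A E1 Q1 hi h1 s1
    by_cases b : NoBack Q2
    · by_cases o : NoOpp E2 Q2
      · obtain ⟨c, hc⟩ := hM α T A E2 Q2 hi h2 t2 o b
        exact hE α T A E2 Q2 c hi h2 hc
      · simp only [NoOpp, not_forall] at o
        obtain ⟨B, s, U, s', C, rfl, u1, c1, c2, v, ne⟩ := o
        have hp : Pair s s' := by
          obtain ⟨j, l, x, rfl⟩ := isC_true c1
          obtain ⟨j', l', x', rfl⟩ := isC_true c2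
          rw [val_C, val_C, mul_eq_one_iff_eq_inv, ← Ess_lt_bar] at v
          have e := lt_inj v
          refine Or.inr ⟨j, j', l, x, rfl, ?_⟩
          cases x <;> cases x'
          · exact absurd rfl ne
          · have : l = l' := by simpa [bar_bar] using congrArg bar e
            rw [this]; rfl
          · have : l = l' := by simpa [bar_bar] using e
            rw [this]; rfl
          · exact absurd rfl ne
        obtain ⟨E3, Q3, h3, m3⟩ := hR α T A E2 s s' B U C hi h2 u1 hp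
        refine ih _ ?_ E3 Q3 h3 rfl
        obtain ⟨⟨_, nd, -⟩, -⟩ := h3
        have := (nd.subperm fun u hu => (m3 u hu).1).countP_le isC
        simp only [kc, List.countP_append, List.countP_cons, c1, c2, if_true] at this k2 k1 hn ⊢
        omega
    · obtain ⟨E3, Q3, h3, k3⟩ := hB α T A E2 Q2 h2 b
      exact ih _ (by omega) E3 Q3 h3 rfl

/-- An automorphism of the quotient is onto on characters. -/
theorem iso_aut {α : Type} (T : Tg α) (σ : MulAut T.P) : Iso T (σ.toMonoidHom.comp T.pj) := by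
  intro e
  let f : T.P →* Multiplicative ℤ := QuotientGroup.lift _
    (FreeGroup.lift fun x => Multiplicative.ofAdd (e x)) fun w hw => (om_ncl T.nul hw).1 e
  have hf : ∀ w, Multiplicative.toAdd (f (T.pj w)) = ch e w := fun w => rfl
  refine ⟨_, fun w u h => (ch_ext (fun u => Multiplicative.toAdd (f (σ.symm (T.pj u))))
    (fun u v => by rw [map_mul, map_mul, map_mul]; rfl) u).symm.trans ?_⟩
  rw [h, ← hf]
  simp

/-- Nielsen's theorem. -/
theorem nielsen_of (hL : LiftSt) (hS : SurjSt) (hH : HopfSt) (hT : TgSt) {α : Type} [Finite α]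
    (c : Ctx α) (hne : c.W ≠ [])
    (uni : ∀ (a : α → ℤ) (d : ℤ), (∀ b, d ∣ om a b c.r) → ∀ x, d ∣ a x)
    (σ : MulAut (FreeGroup α ⧸ Subgroup.normalClosure {c.r})) :
    ∃ (φ : MulAut (FreeGroup α)) (u : FreeGroup α), (φ c.r = c.r ∨ φ c.r = c.r⁻¹) ∧
      ∀ w : FreeGroup α, (QuotientGroup.mk (φ w) : FreeGroup α ⧸ Subgroup.normalClosure {c.r}) =
        QuotientGroup.mk u * σ (QuotientGroup.mk w) * (QuotientGroup.mk u)⁻¹ := by
  obtain ⟨T, hW⟩ := hT α c.W c.full hne uni
  obtain ⟨W, ρ, full, ess, ch⟩ := c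
  subst hW
  change MulAut T.P at σ
  obtain ⟨ψ, h1, h2⟩ := hL α T (σ.toMonoidHom.comp T.pj) full.2
    ((congrArg σ (pj_r T)).trans (map_one σ)) (iso_aut T σ)
  have : ∃ u, u * ψ T.r * u⁻¹ = T.r ∨ u * ψ T.r * u⁻¹ = T.r⁻¹ :=
    h1.elim (fun h => (isConj_iff.1 h).imp fun _ => Or.inl)
      fun h => (isConj_iff.1 h).imp fun _ => Or.inr
  obtain ⟨u, hu⟩ := this
  let ψ' : FreeGroup α →* FreeGroup α := (MulAut.conj u).toMonoidHom.comp ψ
  have hs : Function.Surjective ψ' := hu.elim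
    (fun h => hS α ⟨T.W, ρ, full, ess, ch⟩ ψ' T.r T.nul h)
    fun h => hS α ⟨T.W, ρ, full, ess, ch⟩ ψ' T.r⁻¹ T.nul.inv (by
      rw [map_inv]; exact inv_eq_iff_eq_inv.2 h)
  refine ⟨MulEquiv.ofBijective ψ' ⟨hH α ψ' hs, hs⟩, u, hu, fun w => ?_⟩
  change T.pj (u * ψ w * u⁻¹) = _
  rw [map_mul, map_mul, map_inv, h2]
  rfl

end Pool.Agent.MN
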