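import Pool.Agent.Lib.MP_c86c76_al.B.Ess

/-!
Integral characters of free groups and the intersection form of a null-homologous word.
-/

set_option autoImplicit false

namespace Pool.Agent.MN

open Pool.Agent.MB
open FreeGroup hiding map_mul map_inv map_one

variable {β γ : Type}

/-- The map to the Heisenberg group. -/
def hs (a b : β → ℤ) : FreeGroup β →* EssH := FreeGroup.lift fun x => ⟨a x, b x, 0⟩

/-- The character with the values `a` on the generators. -/
def ch (a : β → ℤ) (w : FreeGroup β) : ℤ :=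
  Multiplicative.toAdd (FreeGroup.lift (fun x => Multiplicative.ofAdd (a x)) w)

/-- The form of a word. -/
def om (a b : β → ℤ) (w : FreeGroup β) : ℤ := (hs a b w).c

/-- Null-homologous elements. -/
def Null (w : FreeGroup β) : Prop := ∀ a : β → ℤ, ch a w = 0

/-- The pull-back of a character. -/
def pb (ψ : FreeGroup γ →* FreeGroup β) (a : β → ℤ) (x : γ) : ℤ := ch a (ψ (of x))

theorem ch_mul (a : β → ℤ) (u v : FreeGroup β) : ch a (u * v) = ch a u + ch a v := by
  rw [ch, map_mul]; rfl

theorem ch_one (a : β → ℤ) : ch a 1 = 0 := by rw [ch, map_one]; rfl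

theorem ch_inv (a : β → ℤ) (u : FreeGroup β) : ch a u⁻¹ = -ch a u := by rw [ch, map_inv]; rfl

theorem ch_of (a : β → ℤ) (x : β) : ch a (of x) = a x := by rw [ch, lift_apply_of]; rfl

theorem ch_lt (a : β → ℤ) (l : β × Bool) : ch a (lt l) = cond l.2 (a l.1) (-a l.1) := by
  obtain ⟨x, _ | _⟩ := l
  · rw [Ess_lt_f, ch_inv, ch_of]; rfl
  · exact ch_of a x

/-- Every additive function is a character. -/
theorem ch_ext (f : FreeGroup β → ℤ) (hf : ∀ u v, f (u * v) = f u + f v) (w : FreeGroup β) :
    f w = ch (fun x => f (of x)) w := by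
  have h1 : f 1 = 0 := by have := hf 1 1; rw [mul_one] at this; omega
  induction w using FreeGroup.induction_on with
  | C1 => rw [h1, ch_one]
  | of x => rw [ch_of]
  | inv_of x _ =>
    have := hf (of x)⁻¹ (of x)
    rw [inv_mul_cancel, h1] at this
    rw [ch_inv, ch_of]; omega
  | mul u v hu hv => rw [hf, ch_mul, hu, hv]

theorem hs_a (a b : β → ℤ) (w : FreeGroup β) : (hs a b w).a = ch a w := by
  rw [ch_ext (fun w => (hs a b w).a) (fun u v => by rw [map_mul]; rfl) w]
  simp only [hs, lift_apply_of]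

theorem hs_b (a b : β → ℤ) (w : FreeGroup β) : (hs a b w).b = ch b w := by
  rw [ch_ext (fun w => (hs a b w).b) (fun u v => by rw [map_mul]; rfl) w]
  simp only [hs, lift_apply_of]

theorem om_mul (a b : β → ℤ) (u v : FreeGroup β) :
    om a b (u * v) = om a b u + om a b v + ch a u * ch b v := by
  rw [om, map_mul, Ess_mul_c, hs_a, hs_b]; rfl

theorem om_one (a b : β → ℤ) : om a b 1 = 0 := by rw [om, map_one]; rfl

theorem om_inv (a b : β → ℤ) (u : FreeGroup β) : om a b u⁻¹ = ch a u * ch b u - om a b u := by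
  rw [om, map_inv, Ess_inv_c, hs_a, hs_b]; rfl

theorem om_of (a b : β → ℤ) (x : β) : om a b (of x) = 0 := by rw [om, hs, lift_apply_of]

theorem om_lt (a b : β → ℤ) (l : β × Bool) : om a b (lt l) = cond l.2 0 (a l.1 * b l.1) := by
  obtain ⟨x, _ | _⟩ := l
  · rw [Ess_lt_f, om_inv, ch_of, ch_of, om_of, sub_zero]; rfl
  · exact om_of a b x

theorem ch_pb (ψ : FreeGroup γ →* FreeGroup β) (a : β → ℤ) (w : FreeGroup γ) :
    ch (pb ψ a) w = ch a (ψ w) :=
  (ch_ext (fun w => ch a (ψ w)) (fun u v => by rw [map_mul, ch_mul]) w).symm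

theorem Null.map {w : FreeGroup γ} (h : Null w) (ψ : FreeGroup γ →* FreeGroup β) : Null (ψ w) :=
  fun a => by rw [← ch_pb, h]

theorem Null.hom {w : FreeGroup β} (h : Null w) (f : FreeGroup β → ℤ)
    (hf : ∀ u v, f (u * v) = f u + f v) : f w = 0 := by rw [ch_ext f hf, h]

theorem om_pb {w : FreeGroup γ} (h : Null w) (ψ : FreeGroup γ →* FreeGroup β) (a b : β → ℤ) :
    om a b (ψ w) = om (pb ψ a) (pb ψ b) w := by
  have := h.hom (fun w => om a b (ψ w) - om (pb ψ a) (pb ψ b) w) fun u v => by
    rw [map_mul, om_mul, om_mul, ch_pb, ch_pb]; ring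
  omega

theorem ch_sub (a a' : β → ℤ) (w : FreeGroup β) : ch (a - a') w = ch a w - ch a' w := by
  rw [ch_ext (fun w => ch a w - ch a' w) (fun u v => by rw [ch_mul, ch_mul]; ring) w]
  simp only [ch_of]; rfl

theorem ch_zero (w : FreeGroup β) : ch 0 w = 0 := by
  have := ch_sub (0 : β → ℤ) 0 w
  rw [sub_zero] at this; omega

theorem om_sub_left (a a' b : β → ℤ) (w : FreeGroup β) :
    om (a - a') b w = om a b w - om a' b w := by
  induction w using FreeGroup.induction_on with
  | C1 => simp [om_one]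
  | of x => simp [om_of]
  | inv_of x _ => simp only [om_inv, om_of, ch_sub]; ring
  | mul u v hu hv => simp only [om_mul, hu, hv, ch_sub]; ring

theorem om_sub_right (a b b' : β → ℤ) (w : FreeGroup β) :
    om a (b - b') w = om a b w - om a b' w := by
  induction w using FreeGroup.induction_on with
  | C1 => simp [om_one]
  | of x => simp [om_of]
  | inv_of x _ => simp only [om_inv, om_of, ch_sub]; ring
  | mul u v hu hv => simp only [om_mul, hu, hv, ch_sub]; ring

theorem om_zero_left (b : β → ℤ) (w : FreeGroup β) : om 0 b w = 0 := by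
  have := om_sub_left (0 : β → ℤ) 0 b w
  rw [sub_zero] at this; omega

theorem om_zero_right (a : β → ℤ) (w : FreeGroup β) : om a 0 w = 0 := by
  have := om_sub_right a (0 : β → ℤ) 0 w
  rw [sub_zero] at this; omega

theorem null_one : Null (1 : FreeGroup β) := ch_one

theorem Null.mul {u v : FreeGroup β} (hu : Null u) (hv : Null v) : Null (u * v) :=
  fun a => by rw [ch_mul, hu, hv, add_zero]

theorem Null.inv {u : FreeGroup β} (hu : Null u) : Null u⁻¹ := fun a => by
  rw [ch_inv, hu, neg_zero]

theorem ch_conj {u v : FreeGroup β} (h : IsConj u v) (a : β → ℤ) : ch a u = ch a v := by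
  obtain ⟨g, rfl⟩ := isConj_iff.1 h
  rw [ch_mul, ch_mul, ch_inv]; ring

theorem Null.conj {u v : FreeGroup β} (hu : Null u) (h : IsConj u v) : Null v :=
  fun a => by rw [← ch_conj h, hu]

theorem om_conj {u v : FreeGroup β} (hu : Null u) (h : IsConj u v) (a b : β → ℤ) :
    om a b u = om a b v := by
  obtain ⟨g, rfl⟩ := isConj_iff.1 h
  rw [om_mul, om_mul, om_inv, ch_mul, ch_inv, hu, hu]; ring

theorem Null.om_mul {u : FreeGroup β} (hu : Null u) (v : FreeGroup β) (a b : β → ℤ) :
    om a b (u * v) = om a b u + om a b v := by rw [MN.om_mul, hu]; ring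

theorem Null.om_inv {u : FreeGroup β} (hu : Null u) (a b : β → ℤ) : om a b u⁻¹ = -om a b u := by
  rw [MN.om_inv, hu]; ring

/-- The normal closure of a null-homologous element. -/
theorem om_ncl {r n : FreeGroup β} (hr : Null r) (h : n ∈ Subgroup.normalClosure {r}) :
    Null n ∧ ∃ d : ℤ, ∀ a b, om a b n = d * om a b r := by
  induction h using Subgroup.closure_induction with
  | mem x hx =>
    obtain ⟨y, hy, e⟩ := Group.mem_conjugatesOfSet_iff.1 hx
    rw [Set.mem_singleton_iff.1 hy] at e
    exact ⟨hr.conj e, 1, fun a b => by rw [← om_conj hr e, one_mul]⟩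
  | one => exact ⟨null_one, 0, fun a b => by rw [om_one, zero_mul]⟩
  | mul x y _ _ hx hy =>
    obtain ⟨h1, d, hd⟩ := hx
    obtain ⟨h2, e, he⟩ := hy
    exact ⟨h1.mul h2, d + e, fun a b => by rw [h1.om_mul, hd, he, add_mul]⟩
  | inv x _ hx =>
    obtain ⟨h1, d, hd⟩ := hx
    exact ⟨h1.inv, -d, fun a b => by rw [h1.om_inv, hd, neg_mul]⟩

/-- Only the values on the letters that occur matter. -/
theorem om_Fr {S : Set β} {w : FreeGroup β} (h : w ∈ Fr S) :
    (∀ a a' : β → ℤ, (∀ x, x ∉ S → a x = a' x) → ch a w = ch a' w) ∧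
    ∀ a a' b b' : β → ℤ, (∀ x, x ∉ S → a x = a' x) → (∀ x, x ∉ S → b x = b' x) →
      om a b w = om a' b' w := by
  induction h using Subgroup.closure_induction with
  | mem x hx =>
    obtain ⟨y, hy, rfl⟩ := hx
    exact ⟨fun a a' h => by rw [ch_of, ch_of, h y hy], fun _ _ _ _ _ _ => by rw [om_of, om_of]⟩
  | one => exact ⟨fun a a' _ => by rw [ch_one, ch_one], fun _ _ _ _ _ _ => by rw [om_one, om_one]⟩
  | mul x y _ _ hx hy =>
    exact ⟨fun a a' h => by rw [ch_mul, ch_mul, hx.1 a a' h, hy.1 a a' h],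
      fun a a' b b' h h' => by
        rw [om_mul, om_mul, hx.2 a a' b b' h h', hy.2 a a' b b' h h', hx.1 a a' h, hy.1 b b' h']⟩
  | inv x _ hx =>
    exact ⟨fun a a' h => by rw [ch_inv, ch_inv, hx.1 a a' h], fun a a' b b' h h' => by
      rw [om_inv, om_inv, hx.2 a a' b b' h h', hx.1 a a' h, hx.1 b b' h']⟩

theorem null_full [DecidableEq β] [Fintype β] {W : List (β × Bool)} (hW : Full W) : Null (mk W) :=
  fun a => by rw [ch, Ess_kill _ hW]; rfl

/-- The form of a product with and without some null-homologous factors. -/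
theorem om_sum {σ : Type} (p : σ → Bool) (f : σ → FreeGroup β) (a b : β → ℤ) (L : List σ)
    (h : ∀ c ∈ L, p c = true → Null (f c)) :
    ch b (L.map f).prod = ch b (L.map fun s => cond (p s) 1 (f s)).prod ∧
    om a b (L.map f).prod = om a b (L.map fun s => cond (p s) 1 (f s)).prod +
      ((L.filter p).map fun c => om a b (f c)).sum := by
  induction L with
  | nil => simp
  | cons s L ih =>
    obtain ⟨i1, i2⟩ := ih fun c hc => h c (List.mem_cons_of_mem _ hc)
    cases e : p s
    · simp only [List.map_cons, List.prod_cons, e, cond_false, List.filter_cons, ch_mul, om_mul, i1,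
        i2, Bool.false_eq_true, if_false]
      exact ⟨trivial, by ring⟩
    · have := h s List.mem_cons_self e
      simp only [List.map_cons, List.prod_cons, e, cond_true, List.filter_cons, ch_mul, om_mul, i1,
        i2, if_true, List.sum_cons, this a, this b, ch_one, om_one]
      exact ⟨trivial, by ring⟩

end Pool.Agent.MN
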