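import Pool.Agent.Lib.MP_c86c76_al.N.Defs

/-!
Statements of the steps of the lifting theorem.
-/

set_option autoImplicit false

namespace Pool.Agent.MN

open Pool.Agent.MB
open FreeGroup hiding map_mul map_inv map_one

/-- Cancellation in a product of letters. -/
def FindSt : Prop := ∀ (α σ : Type) (f : σ → FreeGroup α),
  (∀ (L : List σ) (x : α × Bool), (∀ s ∈ L, f s = 1 ∨ ∃ l, f s = lt l) →
    lt x * (L.map f).prod = 1 →
    ∃ (U : List σ) (s : σ) (V : List σ), L = U ++ s :: V ∧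
      (U.map f).prod = 1 ∧ lt x * f s = 1 ∧ (V.map f).prod = 1) ∧
  ∀ (M : σ → Prop) (L : List σ), (∀ s ∈ L, f s = 1 ∨ ∃ l, f s = lt l) → (L.map f).prod = 1 →
    (∃ s ∈ L, M s ∧ f s ≠ 1) →
    ∃ (A : List σ) (s : σ) (U : List σ) (s' : σ) (B : List σ), L = A ++ s :: U ++ s' :: B ∧
      (U.map f).prod = 1 ∧ f s * f s' = 1 ∧ f s ≠ 1 ∧ (M s ∨ M s') ∧ ∀ u ∈ U, M u → f u = 1

/-- The cyclic successor. -/
def NxSt : Prop := ∀ (σ : Type),
  (∀ (Q Q' : List σ) (u v : σ), Q ~r Q' → Nx Q u v → Nx Q' u v) ∧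
  (∀ (Q : List σ) (u v : σ), Nx Q u v → u ∈ Q ∧ v ∈ Q) ∧
  (∀ (Q : List σ) (u : σ), 2 ≤ Q.length → u ∈ Q → ∃ v, Nx Q u v) ∧
  (∀ (Q : List σ) (u v v' : σ), Q.Nodup → Nx Q u v → Nx Q u v' → v = v') ∧
  (∀ (Q : List σ) (u u' v : σ), Q.Nodup → Nx Q u v → Nx Q u' v → u = u') ∧
  (∀ (S : Type) (ss se : σ → S) (Q Q' : List σ), Q ~r Q' → (∃ a, Pa ss se a Q a) →
    ∃ a, Pa ss se a Q' a) ∧
  (∀ (S : Type) (ss se : σ → S) (Q : List σ) (u v : σ), (∃ a, Pa ss se a Q a) → Nx Q u v →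
    se u = ss v) ∧
  (∀ (S : Type) (ss se : σ → S) (Q : List σ), 2 ≤ Q.length → (∀ u v, Nx Q u v → se u = ss v) →
    ∃ a, Pa ss se a Q a) ∧
  ∀ (A B : List σ) (c y z : σ), (c :: y :: A ++ z :: B).Nodup →
    (∀ v, v ≠ c → Nx (c :: y :: A ++ z :: B) z v → Nx (y :: A ++ z :: c :: B) c v) ∧
    ∀ u v, u ≠ c → u ≠ z → v ≠ c → Nx (c :: y :: A ++ z :: B) u v → Nx (y :: A ++ z :: c :: B) u v

/-- Rotation, insertion, change of unused variables, deletion and cancellation. -/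
def MovSt : Prop := ∀ (α : Type) (T : Tg α) (A : FreeGroup α →* T.P),
  (∀ E Q Q', Q ~r Q' → (∃ a, Ok0 T A E a Q) → ∃ a, Ok0 T A E a Q') ∧
  (∀ E Q Q', Q ~r Q' → Ok T A E Q → Ok T A E Q') ∧
  (∀ E a Q U, Ok0 T A E a Q → U.Nodup → Clo U → (∀ s ∈ U, s ∉ Q) → Pt T E a U a → kl U = 1 →
    Ok0 T A E a (Q ++ U)) ∧
  (∀ E E' a Q, Ok0 T A E a Q →
    (∀ i, (Sum.inl i, true) ∈ Q → E'.th i = E.th i ∧ E'.st i = E.st i ∧ E'.en i = E.en i) →
    Ok0 T A E' a Q ∧ ∀ s ∈ Q, E'.val s = E.val s ∧ ss T E' s = ss T E s ∧ se T E' s = se T E s) ∧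
  (∀ E y B C D, isC y = false → Ok T A E (B ++ y :: C ++ bar y :: D) → E.val y = 1 →
    ss T E y = se T E y → Ok T A E (B ++ C ++ D)) ∧
  (∀ E s s' B, Pair s s' → Ok T A E (s :: s' :: B) → Ok T A E B) ∧
  ∀ E Q c, Ok T A E Q → c ∈ Q → 2 ≤ Q.length

/-- Cut and paste. -/
def CutSt : Prop := ∀ (α : Type) (T : Tg α) (A : FreeGroup α →* T.P) (E : Env α) (y : Sd α)
  (U V B C : List (Sd α)), isC y = false → Ok T A E (U ++ y :: V ++ B ++ bar y :: C) →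
  ∃ E', Ok T A E' (y :: B ++ V ++ bar y :: U ++ C) ∧ E'.val y = E.vl (U ++ y :: V) ∧
    (∀ a b, Pt T E a (U ++ y :: V) b → ss T E' y = a ∧ se T E' y = b) ∧
    ∀ s, s.1 ≠ y.1 → E'.val s = E.val s ∧ ss T E' s = ss T E s ∧ se T E' s = se T E s

/-- A quadratic word with zero form is trivial. -/
def ZeroSt : Prop := ∀ (β : Type) (V : List (β × Bool)), V.Nodup → (∀ l ∈ V, bar l ∈ V) →
  Null (mk V) ∧ ((∀ a b, om a b (mk V) = 0) → mk V = 1)

/-- Rank arguments. -/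
def RankSt : Prop := ∀ (α β : Type) (T : Tg α) (lam : FreeGroup α →* FreeGroup β),
  (∀ (nu : FreeGroup β →* FreeGroup α) (S : Set β) (p q : FreeGroup β), Sur (nu.comp lam) →
    p ∈ Fr S → q ∈ Fr Sᶜ → Null p → Null q → IsConj (lam T.r) (p * q) →
    T.pj (nu p) = 1 → T.pj (nu q) = 1 → (∀ a b, om a b p = 0) ∨ ∀ a b, om a b q = 0) ∧
  (∀ (Θ : FreeGroup β →* FreeGroup (α × Bool)) (q : FreeGroup β) (k m : ℤ),
    Sur ((FreeGroup.map Prod.fst).comp (Θ.comp lam)) → IsConj (lam T.r) q →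
    (∀ a b, om a b (Θ q) = k * om a b (io true T.r) + m * om a b (io false T.r)) →
    k = 0 ∨ m = 0) ∧
  ∀ (ψ : FreeGroup α →* FreeGroup α) (d : ℤ), Sur ψ → (∀ a b, om a b (ψ T.r) = d * om a b T.r) →
    d = 1 ∨ d = -1

/-- One of two closed parts can be dropped. -/
def DropSt : Prop := ∀ (α : Type) (T : Tg α) (A : FreeGroup α →* T.P) (E : Env α) (a : α × Bool)
  (U B : List (Sd α)), Iso T A → Ok T A E (U ++ B) → Clo U → Pt T E a U a → E.vl U = 1 →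
  Ok T A E U ∨ Ok T A E B

/-- A cancelling pair can be removed. -/
def RedSt : Prop := ∀ (α : Type) (T : Tg α) (A : FreeGroup α →* T.P) (E : Env α) (s s' : Sd α)
  (B U C : List (Sd α)), Iso T A → Ok T A E (B ++ s :: U ++ s' :: C) → E.vl U = 1 → Pair s s' →
  ∃ E' Q', Ok T A E' Q' ∧ ∀ u ∈ Q', u ∈ B ++ U ++ C ∧ E'.val u = E.val u

/-- Subdivision. -/
def ShortSt : Prop := ∀ (α : Type) (T : Tg α) (A : FreeGroup α →* T.P) (E : Env α)
  (Q : List (Sd α)), Ok T A E Q → ∃ E' Q', Ok T A E' Q' ∧ Short E' Q' ∧ kc Q' = kc Q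

/-- All variables can be made trivial. -/
def TrivSt : Prop := ∀ (α : Type) (T : Tg α) (A : FreeGroup α →* T.P) (E : Env α)
  (Q : List (Sd α)), Iso T A → Ok T A E Q → Short E Q →
  ∃ E' Q', Ok T A E' Q' ∧ Triv E' Q' ∧ kc Q' ≤ kc Q

/-- Turning around a vertex. -/
def ChSt : Prop := ∀ (α : Type) (Q : List (Sd α)), Q.Nodup → Clo Q →
  (∀ k k' u t t', Ch Q k u t → Ch Q k' u t' → k = k' ∧ t = t') ∧
  (∀ k u t, Ch Q k u t → t ∈ Q ∧ isC t = true) ∧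
  (∀ c ∈ Q, 2 ≤ Q.length → isC c = true → ∃ k t, Ch Q k c t) ∧
  (∀ (T : Tg α) (E : Env α) (k : ℕ) (u t : Sd α), (∃ a, Pt T E a Q a) → Ch Q k u t →
    se T E u = ss T E t) ∧
  (2 ≤ Q.length → NoBack Q → ∃ lab : Sd α → Bool, (∀ c ∈ Q, isC c = true → lab c = c.2) ∧
    ∀ u v, Nx Q u v → lab u = cond (isC v) v.2 (lab (bar v)))

/-- A change of sign on the boundary can be removed. -/
def BackSt : Prop := ∀ (α : Type) (T : Tg α) (A : FreeGroup α →* T.P) (E : Env α)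
  (Q : List (Sd α)), Ok T A E Q → ¬ NoBack Q → ∃ E' Q', Ok T A E' Q' ∧ kc Q' < kc Q

/-- The product of the signed values. -/
def SgnSt : Prop := ∀ (α : Type) (E : Env α) (Q : List (Sd α)), E.vl Q = 1 → Triv E Q →
  NoOpp E Q → (Q.map fun s => io s.2 (E.val s)).prod = 1

/-- A constant of each sign gives a last constant of this sign. -/
def LastSt : Prop := ∀ (α : Type) (T : Tg α) (A : FreeGroup α →* T.P) (E : Env α)
  (Q : List (Sd α)), Ok T A E Q → NoBack Q → ∀ c ∈ Q, isC c = true →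
  ∃ j, (Sum.inr (j, T.la), c.2) ∈ Q

/-- In a reduced polygon all constants have the same sign. -/
def MixSt : Prop := ∀ (α : Type) (T : Tg α) (A : FreeGroup α →* T.P) (E : Env α)
  (Q : List (Sd α)), Iso T A → Ok T A E Q → Triv E Q → NoOpp E Q → NoBack Q →
  ∃ b, ∀ c ∈ Q, isC c = true → c.2 = b

/-- The lift read from a polygon with constants of one sign. -/
def EndSt : Prop := ∀ (α : Type) (T : Tg α) (A : FreeGroup α →* T.P) (E : Env α)
  (Q : List (Sd α)) (b : Bool), Iso T A → Ok T A E Q → (∀ c ∈ Q, isC c = true → c.2 = b) →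
  ∃ ψ : FreeGroup α →* FreeGroup α, (IsConj (ψ T.r) T.r ∨ IsConj (ψ T.r) T.r⁻¹) ∧
    ∀ w, T.pj (ψ w) = A w

/-- The first polygon. -/
def InitSt : Prop := ∀ (α : Type) [Finite α] (T : Tg α) (A : FreeGroup α →* T.P),
  (∀ l, l ∈ T.W) → A T.r = 1 → ∃ E Q, Ok T A E Q

/-- An endomorphism that hits the boundary word from a null-homologous word is onto. -/
def SurjSt : Prop := ∀ (α : Type) [Finite α] (c : Ctx α) (ψ : FreeGroup α →* FreeGroup α)
  (w : FreeGroup α), Null w → ψ w = c.r → Function.Surjective ψ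

/-- Free groups of finite rank are Hopfian. -/
def HopfSt : Prop := ∀ (α : Type) [Finite α] (ψ : FreeGroup α →* FreeGroup α),
  Function.Surjective ψ → Function.Injective ψ

/-- The target of a full word. -/
def TgSt : Prop := ∀ (α : Type) [Finite α] (W : List (α × Bool)), Full W → W ≠ [] →
  (∀ (a : α → ℤ) (d : ℤ), (∀ b, d ∣ om a b (mk W)) → ∀ x, d ∣ a x) → ∃ T : Tg α, T.W = W

/-- The lifting theorem for endomorphisms. -/
def LiftSt : Prop := ∀ (α : Type) [Finite α] (T : Tg α) (A : FreeGroup α →* T.P),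
  (∀ l, l ∈ T.W) → A T.r = 1 → Iso T A →
  ∃ ψ : FreeGroup α →* FreeGroup α, (IsConj (ψ T.r) T.r ∨ IsConj (ψ T.r) T.r⁻¹) ∧
    ∀ w, T.pj (ψ w) = A w

end Pool.Agent.MN
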